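import Pool.Agent.P.MP_d237de_al.Free

set_option autoImplicit false

namespace Pool.Agent.P.MP_d237de_al

open Function Filter Topology

theorem quo_succ_of {N : Type} [Group N] [TopologicalSpace N] [IsTopologicalGroup N]
    {S : Type} [CommGroup S] [IsSimpleGroup S] {k : ℕ} (φ : N →* (Fin k → S))
    (hφo : IsOpen (φ.ker : Set N)) (hφ : Surjective φ) (ψ : N →* S)
    (hψo : IsOpen (ψ.ker : Set N)) (x : N) (hx : φ x = 1) (hx' : ψ x ≠ 1) : Quo N S (k + 1) := by
  have h1 : φ.ker.map ψ = ⊤ := by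
    rcases (Subgroup.normal_of_isMulCommutative (φ.ker.map ψ)).eq_bot_or_eq_top with h | h
    · exact absurd ((Subgroup.map_eq_bot_iff _).mp h hx) hx'
    · exact h
  exact ⟨(consHom S k).comp (φ.prod ψ), open_comp _ (open_prod φ hφo ψ hψo) _,
    (consHom_surj S k).comp (prod_surj φ hφ ψ h1)⟩

/-- The augmentation map of a wreath product with commutative base. -/
def augHom (A Q : Type) [CommGroup A] [Group Q] [Fintype Q] :
    RegularWreathProduct A Q →* A × Q :=
  MonoidHom.mk' (fun w => (∏ q, w.left q, w.right)) (by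
    intro a b
    refine Prod.ext ?_ rfl
    simp only [RegularWreathProduct.mul_left, Pi.mul_apply, Prod.fst_mul, Finset.prod_mul_distrib]
    congr 1
    exact Equiv.prod_comp (Equiv.mulLeft a.right⁻¹) b.left)

theorem augHom_surj (A Q : Type) [CommGroup A] [Group Q] [Fintype Q] :
    Surjective (augHom A Q) := by
  classical
  rintro ⟨a, s⟩
  refine ⟨⟨Pi.mulSingle 1 a, s⟩, Prod.ext ?_ rfl⟩
  show ∏ q, (Pi.mulSingle 1 a : Q → A) q = a
  rw [Finset.prod_pi_mulSingle']
  simp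

theorem quo_succ_abelian {G : Type} [Group G] [TopologicalSpace G] [IsTopologicalGroup G]
    [CompactSpace G] [TotallyDisconnectedSpace G] (N : Subgroup G) (hN : N.Normal)
    (hS : ∀ H : Subgroup G, IsOpen (H : Set G) → ∀ b, AllSolv H b)
    (S : Type) [CommGroup S] [Finite S] [IsSimpleGroup S] (k : ℕ) (h : Quo N S (k + 1)) :
    Quo N S (k + 2) := by
  classical
  have := Fintype.ofFinite S
  obtain ⟨φ, hφo, hφ⟩ := h
  obtain ⟨H, hNH, φ', hHo, -, hφ'o, hφ'⟩ := extend_open N φ hφo ⊤ isOpen_univ le_top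
  have hφ'N : ∀ x : N, φ' (Subgroup.inclusion hNH x) = φ x := fun x => DFunLike.congr_fun hφ' x
  have hφ's : Surjective φ' := by
    intro a
    obtain ⟨x, rfl⟩ := hφ a
    exact ⟨_, hφ'N x⟩
  obtain ⟨γ1, hγ1o, hγ1s, hγ1⟩ := hS H hHo _ (Fin (k + 1) → S) ((Fin (k + 1) → S) × S) (le_refl _)
    φ' (MonoidHom.fst _ _) hφ'o hφ's Prod.fst_surjective
  let ψ : H →* S := (MonoidHom.snd _ _).comp γ1
  have hψo : IsOpen (ψ.ker : Set H) := open_comp γ1 hγ1o _
  by_cases hc : ∃ x : N, φ x = 1 ∧ ψ (Subgroup.inclusion hNH x) ≠ 1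
  · obtain ⟨x, h1, h2⟩ := hc
    exact quo_succ_of φ hφo hφ (ψ.comp (Subgroup.inclusion hNH)) (open_restrict hNH ψ hψo) x h1 h2
  push Not at hc
  obtain ⟨lam, hlam⟩ := exists_factor φ hφ (ψ.comp (Subgroup.inclusion hNH)) (fun x hx => hc x hx)
  let ψ' : H →* S := ψ * (lam.comp φ')⁻¹
  have hψ'a : ∀ x, ψ' x = ψ x * (lam (φ' x))⁻¹ := fun _ => rfl
  have hψ'N : ∀ x : N, ψ' (Subgroup.inclusion hNH x) = 1 := by
    intro x
    have : lam (φ x) = ψ (Subgroup.inclusion hNH x) := DFunLike.congr_fun hlam x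
    rw [hψ'a, hφ'N, this, mul_inv_cancel]
  have hψ'o : IsOpen ((φ'.prod ψ').ker : Set H) := by
    refine Subgroup.isOpen_mono ?_ hγ1o
    intro x hx
    have h1 : φ' x = 1 := by
      rw [← DFunLike.congr_fun hγ1 x, MonoidHom.comp_apply, MonoidHom.mem_ker.mp hx, map_one]
    have h2 : ψ x = 1 := by
      show (γ1 x).2 = 1
      rw [MonoidHom.mem_ker.mp hx]; rfl
    rw [MonoidHom.mem_ker, MonoidHom.prod_apply, hψ'a, h1, h2, map_one, inv_one, one_mul]
    rfl
  have hψ's : Surjective (φ'.prod ψ') := by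
    rintro ⟨a, s⟩
    obtain ⟨x, hx⟩ := hγ1s (a, s * lam a)
    have h1 : φ' x = a := by
      rw [← DFunLike.congr_fun hγ1 x, MonoidHom.comp_apply, hx]; rfl
    have h2 : ψ x = s * lam a := by
      show (γ1 x).2 = _
      rw [hx]
    refine ⟨x, ?_⟩
    rw [MonoidHom.prod_apply, hψ'a, h1, h2, mul_inv_cancel_right]
  obtain ⟨γ2, hγ2o, hγ2s, hγ2⟩ := hS H hHo _ ((Fin (k + 1) → S) × S)
    (RegularWreathProduct (Fin (k + 1) → S) S) (le_refl _) (φ'.prod ψ') (augHom _ _) hψ'o hψ's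
    (augHom_surj _ _)
  have hl : ∀ x, ∏ q, (γ2 x).left q = φ' x :=
    fun x => congrArg Prod.fst (DFunLike.congr_fun hγ2 x)
  have hr : ∀ x : N, (γ2 (Subgroup.inclusion hNH x)).right = 1 :=
    fun x => (congrArg Prod.snd (DFunLike.congr_fun hγ2 (Subgroup.inclusion hNH x))).trans (hψ'N x)
  have hex : ∃ x : N, φ x = 1 ∧ γ2 (Subgroup.inclusion hNH x) ≠ 1 := by
    by_contra hcon
    push Not at hcon
    obtain ⟨a, ha⟩ := exists_ne (1 : Fin (k + 1) → S)
    obtain ⟨x0, rfl⟩ := hφ a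
    set y := γ2 (Subgroup.inclusion hNH x0) with hy
    have hconst : ∀ s : S, y.left s = y.left 1 := by
      intro s
      obtain ⟨g, hg⟩ := hγ2s (RegularWreathProduct.inl s)
      have hmem : (g : G) * x0 * (g : G)⁻¹ * (x0 : G)⁻¹ ∈ N :=
        N.mul_mem (hN.conj_mem _ x0.2 _) (N.inv_mem x0.2)
      have e1 : Subgroup.inclusion hNH ⟨_, hmem⟩ =
          g * Subgroup.inclusion hNH x0 * g⁻¹ * (Subgroup.inclusion hNH x0)⁻¹ := rfl
      have h1 : φ ⟨_, hmem⟩ = 1 := by
        rw [← hφ'N, e1, map_mul, map_mul, map_mul, map_inv, map_inv, mul_comm (φ' g),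
          mul_inv_cancel_right, mul_inv_cancel]
      have h2 := hcon _ h1
      rw [e1, map_mul, map_mul, map_mul, map_inv, map_inv, hg, ← hy, mul_inv_eq_one,
        mul_inv_eq_iff_eq_mul] at h2
      have h3 := congrFun (congrArg RegularWreathProduct.left h2) s
      simpa using h3.symm
    apply ha
    rw [← hφ'N, ← hl, ← hy, Finset.prod_congr rfl (fun s _ => hconst s), Finset.prod_const,
      Finset.card_univ]
    ext c
    rw [Pi.pow_apply, pow_card_eq_one]
    rfl
  obtain ⟨x1, h1, h2⟩ := hex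
  have h3 : ∃ q c, (γ2 (Subgroup.inclusion hNH x1)).left q c ≠ 1 := by
    by_contra hcon
    push Not at hcon
    apply h2
    ext q c
    · exact hcon q c
    · exact hr x1
  obtain ⟨q, c, h4⟩ := h3
  let ψ2 : N →* S := MonoidHom.mk' (fun x => (γ2 (Subgroup.inclusion hNH x)).left q c) (by
    intro a b
    simp only [map_mul, RegularWreathProduct.mul_left, Pi.mul_apply, hr a, inv_one, one_mul])
  refine quo_succ_of φ hφo hφ ψ2 ?_ x1 h1 h4
  refine Subgroup.isOpen_mono ?_ (open_restrict hNH γ2 hγ2o)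
  intro x hx
  have h5 : γ2 (Subgroup.inclusion hNH x) = 1 := hx
  show (γ2 (Subgroup.inclusion hNH x)).left q c = 1
  rw [h5]
  rfl

theorem quo_all_abelian {G : Type} [Group G] [TopologicalSpace G] [IsTopologicalGroup G]
    [CompactSpace G] [TotallyDisconnectedSpace G] (N : Subgroup G) (hN : N.Normal)
    (hS : ∀ H : Subgroup G, IsOpen (H : Set G) → ∀ b, AllSolv H b)
    (S : Type) [Group S] [Finite S] [IsSimpleGroup S] (hc : ∀ a b : S, a * b = b * a)
    (h : Quo N S 1) (k : ℕ) : Quo N S (k + 1) := by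
  let _ : CommGroup S := { ‹Group S› with mul_comm := hc }
  induction k with
  | zero => exact h
  | succ k ih => exact quo_succ_abelian N hN hS S k ih

end Pool.Agent.P.MP_d237de_al
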