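import Pool.Agent.P.MP_d237de_al.Basic

set_option autoImplicit false

namespace Pool.Agent.P.MP_d237de_al

open Function

/-- A relation that comes from a common finite quotient. -/
def Good (G G' : Type) [Group G] [TopologicalSpace G] [Group G'] [TopologicalSpace G']
    (D : G → G' → Prop) : Prop :=
  ∃ (A : Type) (_ : Group A) (_ : Finite A) (φ : G →* A) (φ' : G' →* A),
    IsOpen (φ.ker : Set G) ∧ IsOpen (φ'.ker : Set G') ∧ Surjective φ ∧ Surjective φ' ∧
      ∀ g g', D g g' ↔ φ g = φ' g'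

theorem Good.flip {G G' : Type} [Group G] [TopologicalSpace G] [Group G'] [TopologicalSpace G']
    {D : G → G' → Prop} (h : Good G G' D) : Good G' G (fun g' g => D g g') := by
  obtain ⟨A, i1, i2, φ, φ', h1, h2, h3, h4, h5⟩ := h
  exact ⟨A, i1, i2, φ', φ, h2, h1, h4, h3, fun g' g => (h5 g g').trans eq_comm⟩

theorem continuous_of_open_ker {G A : Type} [Group G] [TopologicalSpace G] [IsTopologicalGroup G]
    [Group A] [TopologicalSpace A] (φ : G →* A) (h : IsOpen (φ.ker : Set G)) : Continuous φ := by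
  refine IsLocallyConstant.continuous ?_
  rw [IsLocallyConstant.iff_isOpen_fiber_apply]
  intro x
  have : φ ⁻¹' {φ x} = (fun g => x⁻¹ * g) ⁻¹' (φ.ker : Set G) := by
    ext g
    simp only [Set.mem_preimage, Set.mem_singleton_iff, SetLike.mem_coe, MonoidHom.mem_ker,
      map_mul, map_inv, inv_mul_eq_one]
    exact eq_comm
  rw [this]
  exact h.preimage (by fun_prop)

theorem step_left {G G' : Type} [Group G] [TopologicalSpace G] [IsTopologicalGroup G]
    [CompactSpace G] [Group G'] [TopologicalSpace G'] [IsTopologicalGroup G'] (hP : PropP G')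
    (hQ : ∀ (S : Type) [Group S] [Finite S] [IsSimpleGroup S] (k : ℕ), Quo G S k → Quo G' S k)
    {D : G → G' → Prop} (hD : Good G G' D) (U : Subgroup G) (hUn : U.Normal)
    (hUo : IsOpen (U : Set G)) :
    ∃ D' : G → G' → Prop, Good G G' D' ∧ (∀ g g', D' g g' → D g g') ∧ ∀ g, D' g 1 → g ∈ U := by
  obtain ⟨A, i1, i2, φ, φ', h1, h2, h3, h4, h5⟩ := hD
  set K : Subgroup G := φ.ker ⊓ U with hK
  have hKo : IsOpen (K : Set G) := by
    rw [hK, Subgroup.coe_inf]
    exact h1.inter hUo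
  have : Finite (G ⧸ K) := Subgroup.quotient_finite_of_isOpen K hKo
  obtain ⟨α, hα⟩ := exists_factor (QuotientGroup.mk' K) (QuotientGroup.mk'_surjective K) φ
    (by rw [QuotientGroup.ker_mk']; exact inf_le_left)
  have hαs : Surjective α := by
    intro a
    obtain ⟨b, rfl⟩ := h3 a
    exact ⟨QuotientGroup.mk' K b, DFunLike.congr_fun hα b⟩
  have hβo : IsOpen ((QuotientGroup.mk' K).ker : Set G) := by
    rw [QuotientGroup.ker_mk']; exact hKo
  obtain ⟨γ, hγo, hγs, hγ⟩ := solve_all hP hQ φ' h2 h4 _ (G ⧸ K) (le_refl _) α hαs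
    (QuotientGroup.mk' K) hβo (QuotientGroup.mk'_surjective K)
  refine ⟨fun g g' => QuotientGroup.mk' K g = γ g', ⟨G ⧸ K, inferInstance, inferInstance,
    QuotientGroup.mk' K, γ, hβo, hγo, QuotientGroup.mk'_surjective K, hγs,
    fun _ _ => Iff.rfl⟩, ?_, ?_⟩
  · intro g g' h
    rw [h5, ← DFunLike.congr_fun hα g, ← DFunLike.congr_fun hγ g', MonoidHom.comp_apply,
      MonoidHom.comp_apply, h]
  · intro g h
    rw [map_one] at h
    exact ((QuotientGroup.eq_one_iff g).mp h).2

theorem limit_exists {G G' : Type} [Group G] [TopologicalSpace G] [Group G'] [TopologicalSpace G']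
    [IsTopologicalGroup G'] [CompactSpace G'] (D : ℕ → G → G' → Prop) (hD : ∀ i, Good G G' (D i))
    (hmono : ∀ i g g', D (i + 1) g g' → D i g g') (g : G) : ∃ g', ∀ i, D i g g' := by
  have hcl : ∀ i, IsClosed {g' | D i g g'} := by
    intro i
    obtain ⟨A, i1, i2, φ, φ', h1, h2, h3, h4, h5⟩ := hD i
    let _ : TopologicalSpace A := ⊥
    have : DiscreteTopology A := ⟨rfl⟩
    have e : {g' | D i g g'} = φ' ⁻¹' {φ g} := by
      ext g'
      simp only [Set.mem_preimage, Set.mem_singleton_iff]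
      exact (h5 g g').trans eq_comm
    rw [e]
    exact (isClosed_discrete _).preimage (continuous_of_open_ker φ' h2)
  obtain ⟨g', hg'⟩ := IsCompact.nonempty_iInter_of_sequence_nonempty_isCompact_isClosed
    (fun i => {g' | D i g g'}) (fun i g' h => hmono i g g' h) (fun i => by
      obtain ⟨A, i1, i2, φ, φ', h1, h2, h3, h4, h5⟩ := hD i
      obtain ⟨g', hg'⟩ := h4 (φ g)
      exact ⟨g', (h5 g g').mpr hg'.symm⟩) (hcl 0).isCompact hcl
  exact ⟨g', Set.mem_iInter.mp hg'⟩

theorem back_and_forth {G G' : Type} [Group G] [TopologicalSpace G] [IsTopologicalGroup G]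
    [CompactSpace G] [T2Space G] [Group G'] [TopologicalSpace G'] [IsTopologicalGroup G']
    [CompactSpace G'] [T2Space G'] (hP : PropP G) (hP' : PropP G')
    (hQ : ∀ (S : Type) [Group S] [Finite S] [IsSimpleGroup S] (k : ℕ), Quo G S k ↔ Quo G' S k)
    (U : ℕ → Subgroup G) (hU : ∀ i, (U i).Normal ∧ IsOpen (U i : Set G))
    (hU1 : ∀ g, (∀ i, g ∈ U i) → g = 1)
    (U' : ℕ → Subgroup G') (hU' : ∀ i, (U' i).Normal ∧ IsOpen (U' i : Set G'))
    (hU1' : ∀ g, (∀ i, g ∈ U' i) → g = 1) : Nonempty (G ≃ₜ* G') := by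
  have step : ∀ (i : ℕ) (D : {D : G → G' → Prop // Good G G' D}),
      ∃ D' : {D : G → G' → Prop // Good G G' D}, (∀ g g', D'.1 g g' → D.1 g g') ∧
        (∀ g, D'.1 g 1 → g ∈ U i) ∧ (∀ g', D'.1 1 g' → g' ∈ U' i) := by
    intro i D
    obtain ⟨D1, h1, h2, h3⟩ := step_left hP' (fun S _ _ _ k => (hQ S k).mp) D.2 (U i)
      (hU i).1 (hU i).2
    obtain ⟨D2, h4, h5, h6⟩ := step_left hP (fun S _ _ _ k => (hQ S k).mpr) h1.flip (U' i)
      (hU' i).1 (hU' i).2
    exact ⟨⟨fun g g' => D2 g' g, h4.flip⟩, fun g g' h => h2 g g' (h5 g' g h),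
      fun g h => h3 g (h5 1 g h), fun g' h => h6 g' h⟩
  choose nxt hn1 hn2 hn3 using step
  have h0 : Good G G' (fun _ _ => True) :=
    ⟨PUnit, inferInstance, inferInstance, 1, 1, by simp, by simp,
      fun _ => ⟨1, rfl⟩, fun _ => ⟨1, rfl⟩, fun _ _ => by simp⟩
  let D : ℕ → {D : G → G' → Prop // Good G G' D} :=
    fun n => Nat.rec ⟨fun _ _ => True, h0⟩ (fun i d => nxt i d) n
  have hDs : ∀ i, D (i + 1) = nxt i (D i) := fun _ => rfl
  have hmono : ∀ i g g', (D (i + 1)).1 g g' → (D i).1 g g' := fun i => hn1 i (D i)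
  have hmul : ∀ i a a' b b', (D i).1 a a' → (D i).1 b b' → (D i).1 (a * b) (a' * b') := by
    intro i a a' b b' ha hb
    obtain ⟨A, i1, i2, φ, φ', h1, h2, h3, h4, h5⟩ := (D i).2
    rw [h5] at ha hb ⊢
    rw [map_mul, map_mul, ha, hb]
  have hdiv : ∀ i a a' b b', (D i).1 a a' → (D i).1 b b' → (D i).1 (a⁻¹ * b) (a'⁻¹ * b') := by
    intro i a a' b b' ha hb
    obtain ⟨A, i1, i2, φ, φ', h1, h2, h3, h4, h5⟩ := (D i).2
    rw [h5] at ha hb ⊢
    rw [map_mul, map_mul, map_inv, map_inv, ha, hb]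
  have huniq : ∀ g a b, (∀ i, (D i).1 g a) → (∀ i, (D i).1 g b) → a = b := by
    intro g a b ha hb
    rw [← inv_mul_eq_one]
    apply hU1'
    intro i
    have := hdiv (i + 1) g a g b (ha (i + 1)) (hb (i + 1))
    rw [inv_mul_cancel] at this
    exact hn3 i (D i) _ this
  have huniq' : ∀ g a b, (∀ i, (D i).1 a g) → (∀ i, (D i).1 b g) → a = b := by
    intro g a b ha hb
    rw [← inv_mul_eq_one]
    apply hU1
    intro i
    have := hdiv (i + 1) a g b g (ha (i + 1)) (hb (i + 1))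
    rw [inv_mul_cancel] at this
    exact hn2 i (D i) _ this
  choose θ hθ using limit_exists (fun i => (D i).1) (fun i => (D i).2) hmono
  have hsurj : Surjective θ := by
    intro g'
    obtain ⟨g, hg⟩ := limit_exists (fun i g' g => (D i).1 g g') (fun i => (D i).2.flip)
      (fun i g' g => hmono i g g') g'
    exact ⟨g, huniq g _ _ (hθ g) hg⟩
  have hinj : Injective θ := by
    intro a b hab
    exact huniq' (θ a) a b (hθ a) (hab ▸ hθ b)
  have hθmul : ∀ a b, θ (a * b) = θ a * θ b := fun a b =>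
    huniq (a * b) _ _ (hθ _) (fun i => hmul i _ _ _ _ (hθ a i) (hθ b i))
  have hgraph : IsClosed {p : G × G' | ∀ i, (D i).1 p.1 p.2} := by
    rw [Set.ofPred_forall]
    refine isClosed_iInter (fun i => ?_)
    obtain ⟨A, i1, i2, φ, φ', h1, h2, h3, h4, h5⟩ := (D i).2
    let _ : TopologicalSpace A := ⊥
    have : DiscreteTopology A := ⟨rfl⟩
    simp only [h5]
    exact isClosed_eq ((continuous_of_open_ker φ h1).comp continuous_fst)
      ((continuous_of_open_ker φ' h2).comp continuous_snd)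
  have hcont : Continuous θ := by
    rw [continuous_iff_isClosed]
    intro C hC
    have e : θ ⁻¹' C = Prod.fst '' ({p : G × G' | ∀ i, (D i).1 p.1 p.2} ∩ Prod.snd ⁻¹' C) := by
      ext g
      constructor
      · intro hg
        exact ⟨(g, θ g), ⟨hθ g, hg⟩, rfl⟩
      · rintro ⟨p, ⟨hp1, hp2⟩, rfl⟩
        show θ p.1 ∈ C
        rw [huniq p.1 _ _ (hθ p.1) hp1]
        exact hp2
    rw [e]
    exact ((hgraph.inter (hC.preimage continuous_snd)).isCompact.image continuous_fst).isClosed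
  let e : G ≃ G' := Equiv.ofBijective θ ⟨hinj, hsurj⟩
  have he : Continuous e := hcont
  exact ⟨{ e with
    map_mul' := hθmul
    continuous_toFun := he
    continuous_invFun := he.continuous_symm_of_equiv_compact_to_t2 }⟩

end Pool.Agent.P.MP_d237de_al
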