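import Mathlib

set_option autoImplicit false

namespace Pool.Agent.P.MP_d237de_al

open Function

/-- `S ^ k` is the image of `G` under a homomorphism with open kernel. -/
def Quo (G : Type) [Group G] [TopologicalSpace G] (S : Type) [Group S] (k : ℕ) : Prop :=
  ∃ ψ : G →* (Fin k → S), IsOpen (ψ.ker : Set G) ∧ Surjective ψ

/-- Solvability of finite embedding problems with kernel in the Melnikov subgroup. -/
def PropP (G : Type) [Group G] [TopologicalSpace G] : Prop :=
  ∀ (A B : Type) [Group A] [Group B] [Finite B] (φ : G →* A) (α : B →* A),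
    IsOpen (φ.ker : Set G) → Surjective φ → Surjective α →
    (∀ W : Subgroup B, W.Normal → W.map α = ⊤ → W = ⊤) →
    ∃ γ : G →* B, IsOpen (γ.ker : Set G) ∧ Surjective γ ∧ α.comp γ = φ

theorem open_comp {G A B : Type} [Group G] [TopologicalSpace G] [IsTopologicalGroup G]
    [Group A] [Group B] (φ : G →* A) (h : IsOpen (φ.ker : Set G)) (μ : A →* B) :
    IsOpen ((μ.comp φ).ker : Set G) := by
  refine Subgroup.isOpen_mono ?_ h
  intro g hg
  rw [MonoidHom.mem_ker] at hg ⊢
  rw [MonoidHom.comp_apply, hg, map_one]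

theorem open_prod {G A B : Type} [Group G] [TopologicalSpace G]
    [Group A] [Group B] (φ : G →* A) (h : IsOpen (φ.ker : Set G)) (ψ : G →* B)
    (h' : IsOpen (ψ.ker : Set G)) : IsOpen ((φ.prod ψ).ker : Set G) := by
  rw [MonoidHom.ker_prod, Subgroup.coe_inf]
  exact h.inter h'

theorem exists_factor {G A B : Type} [Group G] [Group A] [Group B] (φ : G →* A)
    (hφ : Surjective φ) (ψ : G →* B) (h : φ.ker ≤ ψ.ker) : ∃ μ : A →* B, μ.comp φ = ψ :=
  ⟨φ.liftOfSurjective hφ ⟨ψ, h⟩, by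
    ext g
    exact φ.liftOfRightInverse_comp_apply _ (rightInverse_surjInv hφ) ⟨ψ, h⟩ g⟩

theorem prod_surj {G A S : Type} [Group G] [Group A] [Group S] (φ : G →* A)
    (hφ : Surjective φ) (ψ : G →* S) (h : φ.ker.map ψ = ⊤) : Surjective (φ.prod ψ) := by
  rintro ⟨a, s⟩
  obtain ⟨g, rfl⟩ := hφ a
  have : (ψ g)⁻¹ * s ∈ φ.ker.map ψ := h ▸ Subgroup.mem_top _
  obtain ⟨x, hx, hx'⟩ := this
  refine ⟨g * x, ?_⟩
  have hx1 : φ x = 1 := hx
  simp [hx1, hx']

theorem prod_surj_or {G A S : Type} [Group G] [Group A] [Group S] [IsSimpleGroup S] (φ : G →* A)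
    (hφ : Surjective φ) (ψ : G →* S) (hψ : Surjective ψ) :
    Surjective (φ.prod ψ) ∨ φ.ker ≤ ψ.ker := by
  rcases (Subgroup.Normal.map (MonoidHom.normal_ker φ) ψ hψ).eq_bot_or_eq_top with h | h
  · right
    exact (Subgroup.map_eq_bot_iff _).mp h
  · left
    exact prod_surj φ hφ ψ h

/-- The isomorphism `(Fin k → S) × S ≃ (Fin (k + 1) → S)` as a homomorphism. -/
def consHom (S : Type) [Group S] (k : ℕ) : (Fin k → S) × S →* (Fin (k + 1) → S) where
  toFun p := Fin.cons p.2 p.1
  map_one' := by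
    ext i
    refine Fin.cases ?_ (fun j => ?_) i <;> simp
  map_mul' p q := by
    ext i
    refine Fin.cases ?_ (fun j => ?_) i <;> simp

theorem consHom_surj (S : Type) [Group S] (k : ℕ) : Surjective (consHom S k) := by
  intro f
  exact ⟨(Fin.tail f, f 0), Fin.cons_self_tail f⟩

theorem simple_step {G G' : Type} [Group G] [TopologicalSpace G] [IsTopologicalGroup G]
    [Group G'] [TopologicalSpace G'] [IsTopologicalGroup G'] {A S : Type} [Group A] [Finite A]
    [Group S] [Finite S] [IsSimpleGroup S] (hQ : ∀ k, Quo G S k → Quo G' S k)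
    (β : G →* A × S) (hβo : IsOpen (β.ker : Set G)) (hβ : Surjective β)
    (φ : G' →* A) (hφ : Surjective φ) :
    ∃ ψ : G' →* S, IsOpen (ψ.ker : Set G') ∧ Surjective (φ.prod ψ) := by
  by_contra hcon
  push Not at hcon
  have key : ∀ k, ∃ μ : A →* (Fin k → S), Surjective μ := by
    intro k
    induction k with
    | zero => exact ⟨1, fun f => ⟨1, Subsingleton.elim _ _⟩⟩
    | succ k ih =>
      obtain ⟨μ, hμ⟩ := ih
      have h1 : Quo G S (k + 1) := by
        refine ⟨((consHom S k).comp (μ.prodMap (MonoidHom.id S))).comp β, open_comp β hβo _, ?_⟩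
        exact ((consHom_surj S k).comp (hμ.prodMap surjective_id)).comp hβ
      obtain ⟨Ψ, hΨo, hΨ⟩ := hQ _ h1
      have h2 : φ.ker ≤ Ψ.ker := by
        intro g hg
        rw [MonoidHom.mem_ker]
        ext i
        have hs : Surjective ((Pi.evalMonoidHom (fun _ => S) i).comp Ψ) :=
          (surjective_eval i).comp hΨ
        rcases prod_surj_or φ hφ _ hs with h | h
        · exact absurd h (hcon _ (open_comp Ψ hΨo _))
        · exact h hg
      obtain ⟨ν, hν⟩ := exists_factor φ hφ Ψ h2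
      refine ⟨ν, ?_⟩
      intro f
      obtain ⟨g, rfl⟩ := hΨ f
      exact ⟨φ g, by rw [← hν]; rfl⟩
  obtain ⟨μ, hμ⟩ := key (Nat.card A)
  have h1 := Nat.card_le_card_of_surjective μ hμ
  rw [Nat.card_fun, Nat.card_eq_fintype_card (α := Fin _), Fintype.card_fin] at h1
  have h2 : 1 < Nat.card S := Finite.one_lt_card
  exact absurd h1 (not_le.mpr (Nat.lt_pow_self h2))

theorem min_step {G G' : Type} [Group G] [TopologicalSpace G] [IsTopologicalGroup G]
    [Group G'] [TopologicalSpace G'] [IsTopologicalGroup G'] (hP : PropP G')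
    (hQ : ∀ (S : Type) [Group S] [Finite S] [IsSimpleGroup S] (k : ℕ), Quo G S k → Quo G' S k)
    {A B : Type} [Group A] [Group B] [Finite B] (α : B →* A) (hα : Surjective α)
    (hmin : ∀ D : Subgroup B, D.Normal → D ≤ α.ker → D = ⊥ ∨ D = α.ker)
    (β : G →* B) (hβo : IsOpen (β.ker : Set G)) (hβ : Surjective β)
    (φ : G' →* A) (hφo : IsOpen (φ.ker : Set G')) (hφ : Surjective φ) :
    ∃ γ : G' →* B, IsOpen (γ.ker : Set G') ∧ Surjective γ ∧ α.comp γ = φ := by
  by_cases hF : ∀ W : Subgroup B, W.Normal → W.map α = ⊤ → W = ⊤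
  · exact hP A B φ α hφo hφ hα hF
  push Not at hF
  obtain ⟨W, hWn, hWα, hWne⟩ := hF
  have : Finite A := Finite.of_surjective α hα
  have hdec : ∀ b : B, ∃ w ∈ W, w⁻¹ * b ∈ α.ker := by
    intro b
    have : α b ∈ W.map α := hWα ▸ Subgroup.mem_top _
    obtain ⟨w, hw, hw'⟩ := this
    exact ⟨w, hw, by rw [MonoidHom.mem_ker, map_mul, map_inv, hw', inv_mul_cancel]⟩
  have hinf : W ⊓ α.ker = ⊥ := by
    rcases hmin (W ⊓ α.ker) inferInstance inf_le_right with h | h
    · exact h
    · exfalso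
      apply hWne
      rw [eq_top_iff]
      intro b _
      obtain ⟨w, hw, hw'⟩ := hdec b
      rw [← h] at hw'
      simpa using W.mul_mem hw hw'.1
  have hS : IsSimpleGroup (B ⧸ W) := by
    have : Nontrivial (B ⧸ W) := QuotientGroup.nontrivial_iff.mpr hWne
    refine ⟨fun Z hZ => ?_⟩
    have hn : (Z.comap (QuotientGroup.mk' W)).Normal := hZ.comap _
    rcases hmin (Z.comap (QuotientGroup.mk' W) ⊓ α.ker) inferInstance inf_le_right with h | h
    · left
      rw [eq_bot_iff]
      intro z hz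
      obtain ⟨b, rfl⟩ := QuotientGroup.mk'_surjective W z
      obtain ⟨w, hw, hw'⟩ := hdec b
      have hw1 : QuotientGroup.mk' W w = 1 := (QuotientGroup.eq_one_iff w).mpr hw
      have : w⁻¹ * b ∈ Z.comap (QuotientGroup.mk' W) ⊓ α.ker := by
        refine ⟨?_, hw'⟩
        show QuotientGroup.mk' W (w⁻¹ * b) ∈ Z
        rw [map_mul, map_inv, hw1, inv_one, one_mul]
        exact hz
      rw [h, Subgroup.mem_bot, inv_mul_eq_one] at this
      rw [← this, hw1]
      exact Subgroup.one_mem _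
    · right
      rw [eq_top_iff]
      intro z _
      obtain ⟨b, rfl⟩ := QuotientGroup.mk'_surjective W z
      obtain ⟨w, hw, hw'⟩ := hdec b
      have hw1 : QuotientGroup.mk' W w = 1 := (QuotientGroup.eq_one_iff w).mpr hw
      rw [← h] at hw'
      have h2 : QuotientGroup.mk' W (w⁻¹ * b) ∈ Z := hw'.1
      rwa [map_mul, map_inv, hw1, inv_one, one_mul] at h2
  let e0 : B →* A × (B ⧸ W) := α.prod (QuotientGroup.mk' W)
  have he_inj : Injective e0 := by
    rw [← MonoidHom.ker_eq_bot_iff, MonoidHom.ker_prod, QuotientGroup.ker_mk', inf_comm, hinf]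
  have he_surj : Surjective e0 := by
    apply prod_surj α hα
    rw [eq_top_iff]
    intro z _
    obtain ⟨b, rfl⟩ := QuotientGroup.mk'_surjective W z
    obtain ⟨w, hw, hw'⟩ := hdec b
    have hw1 : QuotientGroup.mk' W w = 1 := (QuotientGroup.eq_one_iff w).mpr hw
    exact ⟨w⁻¹ * b, hw', by rw [map_mul, map_inv, hw1, inv_one, one_mul]⟩
  let e : B ≃* A × (B ⧸ W) := MulEquiv.ofBijective e0 ⟨he_inj, he_surj⟩
  obtain ⟨ψ, hψo, hψ⟩ := simple_step (hQ (B ⧸ W)) (e0.comp β) (open_comp β hβo _)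
    (he_surj.comp hβ) φ hφ
  refine ⟨e.symm.toMonoidHom.comp (φ.prod ψ), open_comp _ (open_prod φ hφo ψ hψo) _,
    e.symm.surjective.comp hψ, ?_⟩
  ext g
  have h1 : e0 (e.symm (φ g, ψ g)) = (φ g, ψ g) := e.apply_symm_apply _
  exact congrArg Prod.fst h1

theorem solve_all {G G' : Type} [Group G] [TopologicalSpace G] [IsTopologicalGroup G]
    [Group G'] [TopologicalSpace G'] [IsTopologicalGroup G'] (hP : PropP G')
    (hQ : ∀ (S : Type) [Group S] [Finite S] [IsSimpleGroup S] (k : ℕ), Quo G S k → Quo G' S k)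
    {A : Type} [Group A] (φ : G' →* A) (hφo : IsOpen (φ.ker : Set G')) (hφ : Surjective φ)
    (d : ℕ) : ∀ (B : Type) [Group B] [Finite B], Nat.card B ≤ d → ∀ (α : B →* A), Surjective α →
      ∀ (β : G →* B), IsOpen (β.ker : Set G) → Surjective β →
      ∃ γ : G' →* B, IsOpen (γ.ker : Set G') ∧ Surjective γ ∧ α.comp γ = φ := by
  induction d with
  | zero =>
    intro B _ _ hB
    have : 0 < Nat.card B := Nat.card_pos
    omega
  | succ d ih =>
    intro B _ _ hB α hα β hβo hβ
    by_cases hk : α.ker = ⊥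
    · refine min_step hP hQ α hα ?_ β hβo hβ φ hφo hφ
      intro D _ hD
      left
      rw [hk] at hD
      exact le_bot_iff.mp hD
    obtain ⟨C, hC⟩ := exists_minimal_of_wellFoundedLT
      (fun C : Subgroup B => C.Normal ∧ C ≤ α.ker ∧ C ≠ ⊥) ⟨α.ker, inferInstance, le_refl _, hk⟩
    obtain ⟨hCn, hCk, hCne⟩ := hC.prop
    have hcard : Nat.card (B ⧸ C) ≤ d := by
      have h1 := Subgroup.card_eq_card_quotient_mul_card_subgroup C
      have h2 : 1 < Nat.card C := (Subgroup.one_lt_card_iff_ne_bot C).mpr hCne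
      have h3 : 0 < Nat.card (B ⧸ C) := Nat.card_pos
      nlinarith
    obtain ⟨α', hα'⟩ := exists_factor (QuotientGroup.mk' C) (QuotientGroup.mk'_surjective C) α
      (by rw [QuotientGroup.ker_mk']; exact hCk)
    have hα's : Surjective α' := by
      intro a
      obtain ⟨b, rfl⟩ := hα a
      exact ⟨QuotientGroup.mk' C b, by rw [← hα']; rfl⟩
    obtain ⟨γ', hγ'o, hγ's, hγ'⟩ := ih (B ⧸ C) hcard α' hα's ((QuotientGroup.mk' C).comp β)
      (open_comp β hβo _) ((QuotientGroup.mk'_surjective C).comp hβ)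
    obtain ⟨γ, hγo, hγs, hγ⟩ := min_step hP hQ (QuotientGroup.mk' C)
      (QuotientGroup.mk'_surjective C) (by
        intro D hDn hD
        rw [QuotientGroup.ker_mk'] at hD ⊢
        by_cases h : D = ⊥
        · exact Or.inl h
        · exact Or.inr (le_antisymm hD (hC.le_of_le ⟨hDn, hD.trans hCk, h⟩ hD)))
      β hβo hβ γ' hγ'o hγ's
    refine ⟨γ, hγo, hγs, ?_⟩
    rw [← hγ', ← hγ, ← hα']
    rfl

end Pool.Agent.P.MP_d237de_al
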