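import Pool.Agent.P.MP_d237de_al.BackForth

set_option autoImplicit false

namespace Pool.Agent.P.MP_d237de_al

open Function

theorem exists_ext {G L B : Type} [Group G] [Group L] [Group B] (V H : Subgroup G)
    (hV : V.Normal) (j : L →* G) (hj : ∀ w, j w ∈ H)
    (hd : ∀ h ∈ H, ∃ w, (j w)⁻¹ * h ∈ V) (γ0 : L →* B) (hk : ∀ w, j w ∈ V → γ0 w = 1) :
    ∃ γ : H →* B, (∀ w, γ ⟨j w, hj w⟩ = γ0 w) ∧ ∀ h : H, (h : G) ∈ V → γ h = 1 := by
  choose! c hc using hd
  have key : ∀ (h : G) (w : L), h ∈ H → (j w)⁻¹ * h ∈ V → γ0 (c h) = γ0 w := by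
    intro h w hh hw
    have h1 : j (w⁻¹ * c h) ∈ V := by
      have := V.mul_mem hw (V.inv_mem (hc h hh))
      rw [map_mul, map_inv]
      convert this using 1
      group
    have h2 := hk _ h1
    rw [map_mul, map_inv, inv_mul_eq_one] at h2
    exact h2.symm
  refine ⟨MonoidHom.mk' (fun h : H => γ0 (c h)) ?_, ?_, ?_⟩
  · intro a b
    rw [← map_mul]
    apply key _ _ (a * b).2
    have h1 := hV.conj_mem' _ (hc a a.2) (j (c b))
    have h2 := V.mul_mem h1 (hc b b.2)
    rw [map_mul, Subgroup.coe_mul]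
    convert h2 using 1
    group
  · intro w
    exact key _ w (hj w) (by simp)
  · intro h hh
    have := key h 1 h.2 (by simpa using hh)
    rw [map_one] at this
    exact this

theorem rank_bound {L : Type} [Group L] [IsFreeGroup L] {ι : Type} [Fintype ι] [DecidableEq ι]
    (τ : L →* Multiplicative (ι → ℚ))
    (hτ : ∀ i, ∃ (n : ℕ) (w : L), 0 < n ∧ (τ w).toAdd = n • Pi.single i (1 : ℚ)) :
    Nonempty (ι ↪ IsFreeGroup.Generators L) := by
  rcases finite_or_infinite (IsFreeGroup.Generators L) with hfin | hinf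
  · have := Fintype.ofFinite (IsFreeGroup.Generators L)
    apply Function.Embedding.nonempty_of_card_le
    let v : IsFreeGroup.Generators L → (ι → ℚ) := fun b => (τ (IsFreeGroup.of b)).toAdd
    let P : Submodule ℚ (ι → ℚ) := Submodule.span ℚ (Set.range v)
    have h1 : ∀ w, (τ w).toAdd ∈ P := by
      have h2 : (AddMonoidHom.toMultiplicative P.mkQ.toAddMonoidHom).comp τ = 1 := by
        apply IsFreeGroup.ext_hom
        intro b
        have : P.mkQ (v b) = 0 :=
          (Submodule.Quotient.mk_eq_zero P).mpr (Submodule.subset_span ⟨b, rfl⟩)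
        exact congrArg Multiplicative.ofAdd this
      intro w
      have h3 : P.mkQ (τ w).toAdd = 0 := congrArg Multiplicative.toAdd (DFunLike.congr_fun h2 w)
      exact (Submodule.Quotient.mk_eq_zero P).mp h3
    have h4 : ∀ i, (Pi.single i (1 : ℚ) : ι → ℚ) ∈ P := by
      intro i
      obtain ⟨n, w, hn, hw⟩ := hτ i
      have h5 := h1 w
      rw [hw, ← Nat.cast_smul_eq_nsmul ℚ] at h5
      exact (P.smul_mem_iff (Nat.cast_ne_zero.mpr hn.ne')).mp h5
    have h6 : P = ⊤ := by
      rw [eq_top_iff, ← (Pi.basisFun ℚ ι).span_eq, Submodule.span_le]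
      rintro _ ⟨i, rfl⟩
      rw [Pi.basisFun_apply]
      exact h4 i
    have h7 := finrank_le_of_span_eq_top (R := ℚ) h6
    rwa [Module.finrank_fintype_fun_eq_card] at h7
  · exact ⟨(Fintype.equivFin ι).toEmbedding.trans
      (Fin.valEmbedding.trans (Infinite.natEmbedding _))⟩

theorem solve_free {L : Type} [Group L] [IsFreeGroup L] {ι : Type} [Fintype ι]
    (E : ι ↪ IsFreeGroup.Generators L) {A B : Type} [Group A] [Group B] [Finite B]
    (φ : L →* A) (hφ : Surjective φ) (α : B →* A) (hα : Surjective α)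
    (hcard : Nat.card B * Nat.card B < Fintype.card ι) :
    ∃ γ : L →* B, Surjective γ ∧ α.comp γ = φ := by
  classical
  have : Finite A := Finite.of_surjective α hα
  have := Fintype.ofFinite A
  have := Fintype.ofFinite B
  have hAB : Fintype.card A ≤ Nat.card B := by
    rw [← Nat.card_eq_fintype_card]
    exact Nat.card_le_card_of_surjective α hα
  obtain ⟨a, ha⟩ := Fintype.exists_lt_card_fiber_of_mul_lt_card
    (f := fun i : ι => φ (IsFreeGroup.of (E i))) (n := Nat.card B)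
    (lt_of_le_of_lt (Nat.mul_le_mul_right _ hAB) hcard)
  obtain ⟨e0⟩ : Nonempty (B ↪ {i : ι // φ (IsFreeGroup.of (E i)) = a}) := by
    apply Function.Embedding.nonempty_of_card_le
    rw [Fintype.card_subtype, ← Nat.card_eq_fintype_card]
    exact ha.le
  let e : B → IsFreeGroup.Generators L := fun b => E (e0 b).1
  have he : Injective e := fun b b' h => e0.injective (Subtype.ext (E.injective h))
  have hea : ∀ b, φ (IsFreeGroup.of (e b)) = a := fun b => (e0 b).2
  let l : IsFreeGroup.Generators L → B := fun x =>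
    if h : ∃ b, e b = x ∧ α b = a then h.choose else surjInv hα (φ (IsFreeGroup.of x))
  have hl1 : ∀ x, α (l x) = φ (IsFreeGroup.of x) := by
    intro x
    by_cases h : ∃ b, e b = x ∧ α b = a
    · have e1 : l x = h.choose := dif_pos h
      rw [e1, h.choose_spec.2, ← hea h.choose, h.choose_spec.1]
    · have e1 : l x = surjInv hα (φ (IsFreeGroup.of x)) := dif_neg h
      rw [e1, surjInv_eq hα]
  have hl2 : ∀ b, α b = a → l (e b) = b := by
    intro b hb
    have h : ∃ b', e b' = e b ∧ α b' = a := ⟨b, rfl, hb⟩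
    have e1 : l (e b) = h.choose := dif_pos h
    rw [e1]
    exact he h.choose_spec.1
  have hcomp : α.comp (IsFreeGroup.lift l) = φ := by
    apply IsFreeGroup.ext_hom
    intro x
    rw [MonoidHom.comp_apply, IsFreeGroup.lift_of, hl1]
  refine ⟨IsFreeGroup.lift l, ?_, hcomp⟩
  intro b
  obtain ⟨h, hh⟩ := hφ (α b * a⁻¹)
  have h1 : α ((IsFreeGroup.lift l h)⁻¹ * b) = a := by
    have : α (IsFreeGroup.lift l h) = φ h := DFunLike.congr_fun hcomp h
    rw [map_mul, map_inv, this, hh]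
    group
  refine ⟨h * IsFreeGroup.of (e ((IsFreeGroup.lift l h)⁻¹ * b)), ?_⟩
  rw [map_mul, IsFreeGroup.lift_of, hl2 _ h1]
  group

/-- A free group mapping to `G`, universal and dense modulo the set `R`. -/
structure FreeData (G : Type) [Group G] [TopologicalSpace G] (I : Type) (j : FreeGroup I →* G)
    (R : Set G) : Prop where
  ext : ∀ (D : Type) [Group D] [Finite D] (f : FreeGroup I →* D),
    ∃ g : G →* D, IsOpen (g.ker : Set G) ∧ (∀ r ∈ R, g r = 1) ∧ g.comp j = f
  dens : ∀ V : Subgroup G, V.Normal → IsOpen (V : Set G) → R ⊆ V → ∀ g, ∃ w, (j w)⁻¹ * g ∈ V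

theorem solveE {G : Type} [Group G] [TopologicalSpace G] [IsTopologicalGroup G] [CompactSpace G]
    {I : Type} {j : FreeGroup I →* G} {R : Set G} (hF : FreeData G I j R)
    (H V : Subgroup G) (hVn : V.Normal) (hVo : IsOpen (V : Set G)) (hRV : R ⊆ V) (hVH : V ≤ H)
    {A B : Type} [Group A] [Group B] [Finite B] (φ : H →* A)
    (hφV : ∀ h : H, (h : G) ∈ V → φ h = 1) (hφ : Surjective φ) (α : B →* A) (hα : Surjective α)
    {ι : Type} [Fintype ι] [DecidableEq ι] (hcard : Nat.card B * Nat.card B < Fintype.card ι)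
    (T : Subgroup (FreeGroup I)) (hT : H.comap j ≤ T) (τ : T →* Multiplicative (ι → ℚ))
    (hτ : ∀ i, ∃ t : T, (τ t).toAdd = Pi.single i (1 : ℚ)) :
    ∃ γ : H →* B, IsOpen (γ.ker : Set H) ∧ Surjective γ ∧ α.comp γ = φ := by
  set H0 : Subgroup (FreeGroup I) := H.comap j with hH0
  have hVfin : Finite (G ⧸ V) := Subgroup.quotient_finite_of_isOpen V hVo
  have hVfi : V.FiniteIndex := Subgroup.finiteIndex_of_finite_quotient
  have hV0fi : (V.comap j).FiniteIndex := by
    refine ⟨?_⟩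
    rw [Subgroup.index_comap]
    exact Subgroup.FiniteIndex.index_ne_zero (H := V.subgroupOf j.range)
  have hH0fi : H0.FiniteIndex := Subgroup.finiteIndex_of_le (Subgroup.comap_mono hVH)
  let j0 : H0 →* G := j.comp H0.subtype
  have hj0 : ∀ w : H0, j0 w ∈ H := fun w => w.2
  let jH : H0 →* H := j0.codRestrict H hj0
  have hdens : ∀ W : Subgroup G, W.Normal → IsOpen (W : Set G) → R ⊆ W → W ≤ H →
      ∀ h ∈ H, ∃ w : H0, (j0 w)⁻¹ * h ∈ W := by
    intro W h1 h2 h3 h4 h hh
    obtain ⟨w, hw⟩ := hF.dens W h1 h2 h3 h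
    have : j w ∈ H := by
      have := H.mul_mem hh (H.inv_mem (h4 hw))
      simpa using this
    exact ⟨⟨w, this⟩, hw⟩
  have hφ0 : Surjective (φ.comp jH) := by
    intro a
    obtain ⟨h, rfl⟩ := hφ a
    obtain ⟨w, hw⟩ := hdens V hVn hVo hRV hVH h h.2
    have := hφV ((jH w)⁻¹ * h) hw
    rw [map_mul, map_inv, inv_mul_eq_one] at this
    exact ⟨w, this⟩
  obtain ⟨E⟩ := rank_bound (L := H0) (τ.comp (Subgroup.inclusion hT)) (by
    intro i
    obtain ⟨t, ht⟩ := hτ i
    obtain ⟨n, hn, -, hn'⟩ := H0.exists_pow_mem_of_index_ne_zero hH0fi.index_ne_zero (t : FreeGroup I)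
    refine ⟨n, ⟨_, hn'⟩, hn, ?_⟩
    have : Subgroup.inclusion hT ⟨(t : FreeGroup I) ^ n, hn'⟩ = t ^ n := rfl
    rw [MonoidHom.comp_apply, this, map_pow, toAdd_pow, ht])
  obtain ⟨γ0, hγ0s, hγ0⟩ := solve_free E (φ.comp jH) hφ0 α hα hcard
  have hk : (γ0.ker.map H0.subtype).FiniteIndex := by
    refine ⟨?_⟩
    rw [Subgroup.index_map_subtype]
    exact mul_ne_zero Subgroup.FiniteIndex.index_ne_zero hH0fi.index_ne_zero
  set R0 : Subgroup (FreeGroup I) := (γ0.ker.map H0.subtype).normalCore with hR0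
  have hR0fi : R0.FiniteIndex := inferInstance
  obtain ⟨f, hfo, hfR, hf⟩ := hF.ext (FreeGroup I ⧸ R0) (QuotientGroup.mk' R0)
  set V1 : Subgroup G := f.ker ⊓ V with hV1
  have hV1o : IsOpen (V1 : Set G) := by
    rw [hV1, Subgroup.coe_inf]
    exact hfo.inter hVo
  have hV1n : V1.Normal := inferInstance
  have hRV1 : R ⊆ V1 := fun r hr => ⟨hfR r hr, hRV hr⟩
  have hd1 := hdens V1 hV1n hV1o hRV1 (le_trans inf_le_right hVH)
  obtain ⟨γ, hγ1, hγ2⟩ := exists_ext V1 H hV1n j0 hj0 hd1 γ0 (by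
    intro w hw
    have h1 : QuotientGroup.mk' R0 (w : FreeGroup I) = 1 := by
      rw [← DFunLike.congr_fun hf (w : FreeGroup I)]
      exact hw.1
    have h2 : (w : FreeGroup I) ∈ γ0.ker.map H0.subtype :=
      Subgroup.normalCore_le _ ((QuotientGroup.eq_one_iff _).mp h1)
    obtain ⟨w', hw', e⟩ := h2
    have : w' = w := Subtype.ext e
    rw [← this]
    exact hw')
  refine ⟨γ, ?_, ?_, ?_⟩
  · refine Subgroup.isOpen_mono (H₁ := V1.comap H.subtype) (fun h hh => hγ2 h hh) ?_
    exact hV1o.preimage continuous_subtype_val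
  · intro b
    obtain ⟨w, rfl⟩ := hγ0s b
    exact ⟨_, hγ1 w⟩
  · ext h
    obtain ⟨w, hw⟩ := hd1 h h.2
    have h1 := hγ2 ((jH w)⁻¹ * h) hw
    have h2 := hφV ((jH w)⁻¹ * h) hw.2
    rw [map_mul, map_inv, inv_mul_eq_one] at h1 h2
    have h3 : γ (jH w) = γ0 w := hγ1 w
    rw [MonoidHom.comp_apply, ← h1, ← h2, h3]
    exact DFunLike.congr_fun hγ0 w

end Pool.Agent.P.MP_d237de_al
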