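import Pool.Agent.P.MP_d237de_al.Embed

set_option autoImplicit false

namespace Pool.Agent.P.MP_d237de_al

open Function Filter Topology

/-- All finite embedding problems of size at most `b` are properly solvable. -/
def AllSolv (H : Type) [Group H] [TopologicalSpace H] (b : ℕ) : Prop :=
  ∀ (A B : Type) [Group A] [Group B] [Finite B], Nat.card B ≤ b → ∀ (φ : H →* A) (α : B →* A),
    IsOpen (φ.ker : Set H) → Surjective φ → Surjective α →
    ∃ γ : H →* B, IsOpen (γ.ker : Set H) ∧ Surjective γ ∧ α.comp γ = φ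

theorem exists_open_normal {G : Type} [Group G] [TopologicalSpace G] [IsTopologicalGroup G]
    [CompactSpace G] [TotallyDisconnectedSpace G] (O : Set G) (hO : IsOpen O) (h1 : (1 : G) ∈ O) :
    ∃ V : Subgroup G, V.Normal ∧ IsOpen (V : Set G) ∧ (V : Set G) ⊆ O := by
  obtain ⟨V, hV⟩ := ProfiniteGrp.exist_openNormalSubgroup_sub_open_nhds_of_one hO h1
  exact ⟨V.toSubgroup, V.isNormal', V.isOpen', hV⟩

theorem exists_open_normal_sub {G : Type} [Group G] [TopologicalSpace G] [IsTopologicalGroup G]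
    [CompactSpace G] [TotallyDisconnectedSpace G] (N : Subgroup G) (K : Subgroup N)
    (hK : IsOpen (K : Set N)) (T : Subgroup G) (hT : IsOpen (T : Set G)) :
    ∃ V : Subgroup G, V.Normal ∧ IsOpen (V : Set G) ∧ V ≤ T ∧ ∀ x : N, (x : G) ∈ V → x ∈ K := by
  obtain ⟨O, hO, hOK⟩ := isOpen_induced_iff.mp hK
  have h1 : (1 : G) ∈ O := by
    have : (1 : N) ∈ Subtype.val ⁻¹' O := by rw [hOK]; exact K.one_mem
    exact this
  obtain ⟨V, h2, h3, h4⟩ := exists_open_normal (O ∩ T) (hO.inter hT) ⟨h1, T.one_mem⟩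
  refine ⟨V, h2, h3, fun x hx => (h4 hx).2, fun x hx => ?_⟩
  have : x ∈ Subtype.val ⁻¹' O := (h4 hx).1
  rw [hOK] at this
  exact this

/-- Extension of a homomorphism from a normal subgroup to an open subgroup. -/
theorem extend_open {G : Type} [Group G] [TopologicalSpace G] [IsTopologicalGroup G]
    [CompactSpace G] [TotallyDisconnectedSpace G] (N : Subgroup G) {A : Type} [Group A]
    (φ : N →* A) (hφ : IsOpen (φ.ker : Set N)) (T : Subgroup G) (hT : IsOpen (T : Set G))
    (hNT : N ≤ T) :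
    ∃ (H : Subgroup G) (hNH : N ≤ H) (φ' : H →* A), IsOpen (H : Set G) ∧ H ≤ T ∧
      IsOpen (φ'.ker : Set H) ∧ φ'.comp (Subgroup.inclusion hNH) = φ := by
  obtain ⟨V, hVn, hVo, hVT, hV⟩ := exists_open_normal_sub N φ.ker hφ T hT
  obtain ⟨φ', h1, h2⟩ := exists_ext V (N ⊔ V) hVn N.subtype
    (fun w => Subgroup.mem_sup_left w.2) (by
      intro h hh
      have : h ∈ ((N ⊔ V : Subgroup G) : Set G) := hh
      rw [Subgroup.mul_normal] at this
      obtain ⟨a, ha, v, hv, rfl⟩ := this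
      exact ⟨⟨a, ha⟩, by simpa using hv⟩) φ hV
  refine ⟨N ⊔ V, le_sup_left, φ', Subgroup.isOpen_mono le_sup_right hVo, sup_le hNT hVT, ?_, ?_⟩
  · refine Subgroup.isOpen_mono (H₁ := V.comap (N ⊔ V).subtype) (fun h hh => h2 h hh) ?_
    exact hVo.preimage continuous_subtype_val
  · ext w
    exact h1 w

theorem open_restrict {G : Type} [Group G] [TopologicalSpace G] {N H : Subgroup G} (hNH : N ≤ H)
    {B : Type} [Group B] (γ : H →* B) (hγ : IsOpen (γ.ker : Set H)) :
    IsOpen ((γ.comp (Subgroup.inclusion hNH)).ker : Set N) :=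
  hγ.preimage (f := Subgroup.inclusion hNH) (Continuous.subtype_mk continuous_subtype_val _)

theorem range_normal {G : Type} [Group G] {N H : Subgroup G} (hN : N.Normal) (hNH : N ≤ H)
    {B : Type} [Group B] (γ : H →* B) (hγ : Surjective γ) :
    (γ.comp (Subgroup.inclusion hNH)).range.Normal := by
  rw [MonoidHom.range_comp, Subgroup.inclusion_range]
  exact (hN.subgroupOf H).map γ hγ

theorem propP_of {G : Type} [Group G] [TopologicalSpace G] [IsTopologicalGroup G]
    [CompactSpace G] [TotallyDisconnectedSpace G] (N : Subgroup G) (hN : N.Normal)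
    (h : ∀ b, ∃ T : Subgroup G, IsOpen (T : Set G) ∧ N ≤ T ∧
      ∀ H : Subgroup G, IsOpen (H : Set G) → H ≤ T → AllSolv H b) : PropP N := by
  intro A B _ _ _ φ α hφo hφ hα hF
  obtain ⟨T, hTo, hNT, hT⟩ := h (Nat.card B)
  obtain ⟨H, hNH, φ', hHo, hHT, hφ'o, hφ'⟩ := extend_open N φ hφo T hTo hNT
  have hφ's : Surjective φ' := by
    intro a
    obtain ⟨x, rfl⟩ := hφ a
    exact ⟨_, DFunLike.congr_fun hφ' x⟩
  obtain ⟨γ, hγo, hγs, hγ⟩ := hT H hHo hHT A B (le_refl _) φ' α hφ'o hφ's hα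
  have hc : α.comp (γ.comp (Subgroup.inclusion hNH)) = φ := by
    rw [← MonoidHom.comp_assoc, hγ, hφ']
  refine ⟨γ.comp (Subgroup.inclusion hNH), open_restrict hNH γ hγo, ?_, hc⟩
  rw [← MonoidHom.range_eq_top]
  apply hF _ (range_normal hN hNH γ hγs)
  rw [MonoidHom.map_range, hc, MonoidHom.range_eq_top]
  exact hφ

theorem allSolv_of {G : Type} [Group G] [TopologicalSpace G] [IsTopologicalGroup G]
    [CompactSpace G] [TotallyDisconnectedSpace G] (H : Subgroup G) (hH : IsOpen (H : Set G))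
    (b : ℕ)
    (h : ∀ V : Subgroup G, V.Normal → IsOpen (V : Set G) →
      ∃ (I : Type) (j : FreeGroup I →* G) (R : Set G), FreeData G I j R ∧ R ⊆ V ∧
        ∃ (ι : Type) (_ : Fintype ι) (_ : DecidableEq ι), b * b < Fintype.card ι ∧
          ∃ (T : Subgroup (FreeGroup I)) (τ : T →* Multiplicative (ι → ℚ)), H.comap j ≤ T ∧
            ∀ i, ∃ t : T, (τ t).toAdd = Pi.single i (1 : ℚ)) : AllSolv H b := by
  intro A B _ _ _ hB φ α hφo hφ hα
  obtain ⟨V, hVn, hVo, hVH, hV⟩ := exists_open_normal_sub H φ.ker hφo H hH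
  obtain ⟨I, j, R, hF, hRV, ι, i1, i2, hcard, T, τ, hT, hτ⟩ := h V hVn hVo
  exact solveE hF H V hVn hVo hRV hVH φ hV hφ α hα
    (lt_of_le_of_lt (Nat.mul_le_mul hB hB) hcard) T hT τ hτ

theorem countable_base {G : Type} [Group G] [TopologicalSpace G] [IsTopologicalGroup G]
    [CompactSpace G] [T2Space G] [TotallyDisconnectedSpace G]
    (hc : ∀ d : ℕ, {φ : G →* Equiv.Perm (Fin d) | IsOpen (φ.ker : Set G)}.Countable) :
    ∃ U : ℕ → Subgroup G, (∀ i, (U i).Normal ∧ IsOpen (U i : Set G)) ∧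
      ∀ g, (∀ i, g ∈ U i) → g = 1 := by
  have h1 : (⋃ d : ℕ, MonoidHom.ker ''
      {φ : G →* Equiv.Perm (Fin d) | IsOpen (φ.ker : Set G)}).Countable :=
    Set.countable_iUnion (fun d => (hc d).image _)
  obtain ⟨U, hU⟩ := h1.exists_eq_range
    ⟨_, Set.mem_iUnion.mpr ⟨0, 1, by simp, rfl⟩⟩
  refine ⟨U, ?_, ?_⟩
  · intro i
    have : U i ∈ Set.range U := ⟨i, rfl⟩
    rw [← hU] at this
    obtain ⟨d, φ, h2, h3⟩ := Set.mem_iUnion.mp this
    rw [← h3]
    exact ⟨inferInstance, h2⟩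
  · intro g hg
    by_contra hne
    obtain ⟨V, hVn, hVo, hV⟩ := exists_open_normal ({g}ᶜ : Set G) isOpen_compl_singleton
      (fun h => hne (Set.mem_singleton_iff.mp h).symm)
    have : Finite (G ⧸ V) := Subgroup.quotient_finite_of_isOpen V hVo
    let e := Finite.equivFin (G ⧸ V)
    let μ : (G ⧸ V) →* Equiv.Perm (Fin (Nat.card (G ⧸ V))) :=
      e.permCongrHom.toMonoidHom.comp (MulAction.toPermHom (G ⧸ V) (G ⧸ V))
    have hμ : Injective μ := e.permCongrHom.injective.comp MulAction.toPerm_injective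
    have ho : IsOpen ((μ.comp (QuotientGroup.mk' V)).ker : Set G) :=
      open_comp _ (by rw [QuotientGroup.ker_mk']; exact hVo) _
    have h2 : (μ.comp (QuotientGroup.mk' V)).ker ∈ Set.range U := by
      rw [← hU]
      exact Set.mem_iUnion.mpr ⟨_, _, ho, rfl⟩
    obtain ⟨i, hi⟩ := h2
    have h3 := hg i
    rw [hi, MonoidHom.mem_ker, MonoidHom.comp_apply, ← map_one μ] at h3
    exact hV ((QuotientGroup.eq_one_iff g).mp (hμ h3)) rfl

/-- The universal property of a free profinite group on a family, relative to a class of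
admissible maps of the family. -/
structure Univ (G : Type) [Group G] [TopologicalSpace G] (I : Type) (x : I → G)
    (l : Filter I) : Prop where
  ex : ∀ (D : Type) [Group D] [Finite D] (f : I → D), (∀ᶠ i in l, f i = 1) →
    ∃ φ : G →* D, IsOpen (φ.ker : Set G) ∧ ∀ i, φ (x i) = f i
  uniq : ∀ (D : Type) [Group D] [Finite D] (φ ψ : G →* D), IsOpen (φ.ker : Set G) →
    IsOpen (ψ.ker : Set G) → (∀ i, φ (x i) = ψ (x i)) → φ = ψ

theorem univ_of {G : Type} [Group G] [TopologicalSpace G] [IsTopologicalGroup G] {I : Type}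
    (x : I → G) (l : Filter I) (hx : Tendsto x l (𝓝 1))
    (h : ∀ (H : Type) [Group H] [Finite H] [TopologicalSpace H] [DiscreteTopology H]
      (f : I → H), (∀ᶠ k in l, f k = 1) → ∃! φ : G →* H, Continuous ⇑φ ∧ ⇑φ ∘ x = f) :
    Univ G I x l := by
  constructor
  · intro D _ _ f hf
    let _ : TopologicalSpace D := ⊥
    have : DiscreteTopology D := ⟨rfl⟩
    obtain ⟨φ, ⟨h1, h2⟩, -⟩ := h D f hf
    exact ⟨φ, (isOpen_discrete {1}).preimage h1, fun i => congrFun h2 i⟩
  · intro D _ _ φ ψ hφ hψ hx'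
    let _ : TopologicalSpace D := ⊥
    have : DiscreteTopology D := ⟨rfl⟩
    have hev : ∀ᶠ k in l, (φ ∘ x) k = 1 := hx.eventually (hφ.mem_nhds φ.ker.one_mem)
    exact (h D (φ ∘ x) hev).unique ⟨continuous_of_open_ker φ hφ, rfl⟩
      ⟨continuous_of_open_ker ψ hψ, funext (fun i => (hx' i).symm)⟩

theorem freeData_of {G : Type} [Group G] [TopologicalSpace G] [IsTopologicalGroup G]
    [CompactSpace G] {I : Type} {x : I → G} {l : Filter I} (hU : Univ G I x l)
    (p : I → Prop) (hp : ∀ᶠ i in l, ¬ p i) :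
    FreeData G {i // p i} (FreeGroup.lift (fun i => x i.1)) (x '' {i | ¬ p i}) := by
  classical
  have hext : ∀ (D : Type) [Group D] [Finite D] (f : FreeGroup {i // p i} →* D),
      ∃ g : G →* D, IsOpen (g.ker : Set G) ∧ (∀ r ∈ x '' {i | ¬ p i}, g r = 1) ∧
        g.comp (FreeGroup.lift (fun i : {i // p i} => x i.1)) = f := by
    intro D _ _ f
    obtain ⟨φ, h1, h2⟩ := hU.ex D (fun i => if h : p i then f (FreeGroup.of ⟨i, h⟩) else 1)
      (hp.mono (fun i hi => dif_neg hi))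
    refine ⟨φ, h1, ?_, ?_⟩
    · rintro _ ⟨i, hi, rfl⟩
      rw [h2]
      exact dif_neg hi
    · ext i
      rw [MonoidHom.comp_apply, FreeGroup.lift_apply_of, h2, dif_pos i.2]
  refine ⟨hext, ?_⟩
  intro V hVn hVo hRV g
  have : Finite (G ⧸ V) := Subgroup.quotient_finite_of_isOpen V hVo
  let j : FreeGroup {i // p i} →* G := FreeGroup.lift (fun i => x i.1)
  let q : FreeGroup {i // p i} →* G ⧸ V := (QuotientGroup.mk' V).comp j
  obtain ⟨φ, h1, h2, h3⟩ := hext q.range q.rangeRestrict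
  have h4 : q.range.subtype.comp φ = QuotientGroup.mk' V := by
    apply hU.uniq _ _ _ (open_comp φ h1 _) (by rw [QuotientGroup.ker_mk']; exact hVo)
    intro i
    by_cases hi : p i
    · have e1 : x i = j (FreeGroup.of ⟨i, hi⟩) := by simp [j]
      rw [e1]
      exact congrArg Subtype.val (DFunLike.congr_fun h3 (FreeGroup.of ⟨i, hi⟩))
    · rw [MonoidHom.comp_apply, h2 _ ⟨i, hi, rfl⟩, map_one]
      exact ((QuotientGroup.eq_one_iff _).mpr (hRV ⟨i, hi, rfl⟩)).symm
  obtain ⟨w, hw⟩ := (φ g).2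
  refine ⟨w, ?_⟩
  have h5 : QuotientGroup.mk' V (j w) = QuotientGroup.mk' V g := by
    rw [← DFunLike.congr_fun h4 g]
    exact hw
  exact QuotientGroup.eq.mp h5

theorem countable_homs {G : Type} [Group G] [TopologicalSpace G] {I : Type} [Countable I]
    {x : I → G} {l : Filter I} (hU : Univ G I x l) (hx : Tendsto x cofinite (𝓝 1))
    (D : Type) [Group D] [Finite D] : {φ : G →* D | IsOpen (φ.ker : Set G)}.Countable := by
  have h1 : {φ : G →* D | IsOpen (φ.ker : Set G)} ⊆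
      ⋃ s : Finset I, {φ : G →* D | IsOpen (φ.ker : Set G) ∧ ∀ i, i ∉ s → φ (x i) = 1} := by
    intro φ hφ
    have hev : ∀ᶠ k in cofinite, φ (x k) = 1 :=
      hx.eventually ((show IsOpen (φ.ker : Set G) from hφ).mem_nhds φ.ker.one_mem)
    rw [eventually_cofinite] at hev
    refine Set.mem_iUnion.mpr ⟨hev.toFinset, hφ, fun i hi => ?_⟩
    by_contra h
    exact hi (hev.mem_toFinset.mpr h)
  refine (Set.countable_iUnion (fun s => Set.Finite.countable ?_)).mono h1
  refine Set.Finite.of_injOn (f := fun φ : G →* D => fun i : s => φ (x i.1)) (t := Set.univ)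
    (fun _ _ => Set.mem_univ _) ?_ Set.finite_univ
  intro φ hφ ψ hψ h
  apply hU.uniq D φ ψ hφ.1 hψ.1
  intro i
  by_cases hi : i ∈ s
  · exact congrFun h ⟨i, hi⟩
  · rw [hφ.2 i hi, hψ.2 i hi]

theorem allSolv_omega {F : Type} [Group F] [TopologicalSpace F] [IsTopologicalGroup F]
    [CompactSpace F] [TotallyDisconnectedSpace F] {κ : ℕ → F} (hκ : Tendsto κ atTop (𝓝 1))
    (hU : Univ F ℕ κ atTop) (H : Subgroup F) (hH : IsOpen (H : Set F)) (b : ℕ) :
    AllSolv H b := by
  apply allSolv_of H hH b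
  intro V hVn hVo
  obtain ⟨k0, hk0⟩ := eventually_atTop.mp (hκ.eventually (hVo.mem_nhds V.one_mem))
  set k := max k0 (b * b + 1) with hk
  refine ⟨{i // i < k}, _, _, freeData_of hU (fun i => i < k) ?_, ?_, {i // i < k},
    Fintype.ofEquiv _ Fin.equivSubtype, inferInstance, ?_, ⊤,
    (FreeGroup.lift (fun i => Multiplicative.ofAdd (Pi.single i (1 : ℚ)))).comp (Subgroup.subtype ⊤),
    le_top, ?_⟩
  · filter_upwards [eventually_ge_atTop k] with i hi
    omega
  · rintro _ ⟨i, hi, rfl⟩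
    have : ¬ i < k := hi
    exact hk0 i (by omega)
  · rw [Fintype.ofEquiv_card, Fintype.card_fin]
    omega
  · intro i
    exact ⟨⟨FreeGroup.of i, Subgroup.mem_top _⟩, by simp⟩

end Pool.Agent.P.MP_d237de_al
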