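import Pool.Agent.P.MP_d237de_al.Minimal

set_option autoImplicit false

namespace Pool.Agent.P.MP_d237de_al

open Function Filter Topology

theorem Quo.mono {G : Type} [Group G] [TopologicalSpace G] [IsTopologicalGroup G] {S : Type}
    [Group S] {k k' : ℕ} (h : Quo G S k) (hk : k' ≤ k) : Quo G S k' := by
  obtain ⟨ψ, h1, h2⟩ := h
  let r : (Fin k → S) →* (Fin k' → S) :=
    MonoidHom.mk' (fun f => f ∘ Fin.castLE hk) (fun _ _ => rfl)
  exact ⟨r.comp ψ, open_comp ψ h1 r,
    ((Fin.castLE_injective hk).surjective_comp_right).comp h2⟩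

theorem Quo.iso {G : Type} [Group G] [TopologicalSpace G] [IsTopologicalGroup G] {S S' : Type}
    [Group S] [Group S'] {k : ℕ} (h : Quo G S k) (e : S ≃* S') : Quo G S' k := by
  obtain ⟨ψ, h1, h2⟩ := h
  let r : (Fin k → S) ≃* (Fin k → S') := MulEquiv.piCongrRight (fun _ => e)
  exact ⟨r.toMonoidHom.comp ψ, open_comp ψ h1 _, r.surjective.comp h2⟩

theorem quo_zero (G : Type) [Group G] [TopologicalSpace G] (S : Type) [Group S] : Quo G S 0 :=
  ⟨1, by simp, fun f => ⟨1, Subsingleton.elim _ _⟩⟩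

/-- Isomorphism of groups as an equivalence relation. -/
def isoS : Setoid GrpCat.{0} :=
  ⟨fun A B => Nonempty (A ≃* B),
    ⟨fun _ => ⟨MulEquiv.refl _⟩, fun ⟨e⟩ => ⟨e.symm⟩, fun ⟨e⟩ ⟨f⟩ => ⟨e.trans f⟩⟩⟩

theorem base_restrict {G : Type} [Group G] [TopologicalSpace G] (U : ℕ → Subgroup G)
    (hU : ∀ i, (U i).Normal ∧ IsOpen (U i : Set G)) (hU1 : ∀ g, (∀ i, g ∈ U i) → g = 1)
    (N : Subgroup G) : ∃ U' : ℕ → Subgroup N, (∀ i, (U' i).Normal ∧ IsOpen (U' i : Set N)) ∧
      ∀ g, (∀ i, g ∈ U' i) → g = 1 :=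
  ⟨fun i => (U i).comap N.subtype,
    fun i => ⟨(hU i).1.comap _, (hU i).2.preimage continuous_subtype_val⟩,
    fun g hg => Subtype.ext (hU1 g hg)⟩

theorem main {I : Type} [Finite I] [Nontrivial I]
    {G : Type} [Group G] [TopologicalSpace G] [IsTopologicalGroup G] [CompactSpace G]
    [T2Space G] [TotallyDisconnectedSpace G] {x : I → G} (hG : Univ G I x ⊥)
    {F : Type} [Group F] [TopologicalSpace F] [IsTopologicalGroup F] [CompactSpace F]
    [T2Space F] [TotallyDisconnectedSpace F] {κ : ℕ → F} (hκ : Tendsto κ atTop (𝓝 1))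
    (hF : Univ F ℕ κ atTop) (N : Subgroup F) (hNc : IsClosed (N : Set F)) (hNn : N.Normal)
    (hgen : ∀ (S : Type) [Group S] [Finite S] [IsSimpleGroup S], (∃ a b : S, a * b ≠ b * a) →
      Quo N S 1 → (∃ k, ¬ Quo N S k) → ∃ s : I → S, Subgroup.closure (Set.range s) = ⊤) :
    ∃ M : Subgroup G, IsClosed (M : Set G) ∧ M.Normal ∧ Nonempty (N ≃ₜ* M) := by
  classical
  obtain ⟨i1, i0, h01⟩ := exists_pair_ne I
  have hχex : ∀ m : ℕ, ∃ χ : G →* Cyc m, IsOpen (χ.ker : Set G) ∧
      ∀ i, χ (x i) = if i = i0 then gen m else 1 := fun m => hG.ex (Cyc m) _ (by simp)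
  choose χ hχo hχ using hχex
  let L : Subgroup G := ⨅ m, (χ m).ker
  have hLn : L.Normal := Subgroup.normal_iInf_normal (fun m => inferInstance)
  have hLc : IsClosed (L : Set G) := by
    rw [Subgroup.coe_iInf]
    exact isClosed_iInter (fun m => (χ m).ker.isClosed_of_isOpen (hχo m))
  have hLχ : ∀ m, L ≤ (χ m).ker := fun m => iInf_le _ m
  have hxL : ∀ i, i ≠ i0 → x i ∈ L := by
    intro i hi
    refine Subgroup.mem_iInf.mpr (fun m => ?_)
    rw [MonoidHom.mem_ker, hχ, if_neg hi]
  have hab : ∀ (S : Type) [Group S] [Finite S] [IsSimpleGroup S],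
      (¬ ∃ a b : S, a * b ≠ b * a) → Quo N S 1 → ∀ k, Quo N S k := by
    intro S _ _ _ hc h k
    push Not at hc
    exact (quo_all_abelian N hNn (fun H hH b => allSolv_omega hκ hF H hH b) S hc h k).mono
      (Nat.le_succ k)
  let valid : Quotient isoS × ℕ → Prop := fun p =>
    Finite p.1.out ∧ IsSimpleGroup p.1.out ∧ Quo N p.1.out (p.2 + 1) ∧
      ((∀ k, Quo N p.1.out k) ∨ ¬ Quo N p.1.out (p.2 + 2)) ∧ HasDatum G L p.1.out (p.2 + 1)
  let Idx : Type 1 := {p // valid p}
  let Sf : Idx → Type := fun i => i.1.1.out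
  have hfin : ∀ i : Idx, Finite (Sf i) := fun i => i.2.1
  have hsim : ∀ i : Idx, IsSimpleGroup (Sf i) := fun i => i.2.2.1
  have hdat : ∀ i : Idx, HasDatum G L (Sf i) (i.1.2 + 1) := fun i => i.2.2.2.2.2
  choose K ρ hKn hKo hK hρ hmin using hdat
  have hρo : ∀ i, IsOpen ((ρ i).ker : Set L) := by
    intro i
    have : (ρ i).ker = (K i).comap L.subtype := by
      ext l
      exact hK i l
    rw [this]
    exact (hKo i).preimage continuous_subtype_val
  obtain ⟨M, ⟨hMn, hMc, hML, hM1⟩, hM2⟩ := exists_minimal_sub L hLn hLc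
    (fun i : Idx => Fin (i.1.2 + 1) → Sf i) ρ hρo hρ
  have hρM : ∀ i, Surjective ((ρ i).comp (Subgroup.inclusion hML)) := by
    intro i f
    obtain ⟨l, hl, e⟩ := hM1 i f
    exact ⟨⟨l, hl⟩, e⟩
  have hvalid : ∀ (c : Quotient isoS) [Finite c.out] [IsSimpleGroup c.out] (k : ℕ),
      Quo N c.out (k + 1) → ∃ m, k ≤ m ∧ valid (c, m) := by
    intro c h1 h2 k hk
    by_cases hall : ∀ k, Quo N c.out k
    · by_cases hc : ∃ a b : c.out, a * b ≠ b * a
      · refine ⟨2 * max (Nat.card c.out + 1) k, by omega, h1, h2, hall _, Or.inl hall, ?_⟩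
        exact datum_neu hG _ (χ _) (hχo _) (hχ _) L hLn (hLχ _) hxL hc (le_max_left _ _) i1 h01
      · refine ⟨k, le_refl _, h1, h2, hk, Or.inl hall, ?_⟩
        obtain ⟨a, ha⟩ := exists_ne (1 : c.out)
        refine datum_gen hG k (χ _) (hχo _) (hχ _) L hLn (hLχ _) hxL (fun _ => a) ?_ i1 h01 ha
        push Not at hc
        have hn : (Subgroup.closure (Set.range (fun _ : I => a))).Normal :=
          ⟨fun n hn g => by rwa [hc g n, mul_inv_cancel_right]⟩
        rcases hn.eq_bot_or_eq_top with e | e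
        · have : a ∈ Subgroup.closure (Set.range (fun _ : I => a)) :=
            Subgroup.subset_closure ⟨i0, rfl⟩
          rw [e] at this
          exact absurd this ha
        · exact e
    · have hex : ∃ k, ¬ Quo N c.out k := not_forall.mp hall
      have hk0 : k + 1 < Nat.find hex := by
        by_contra h
        exact Nat.find_spec hex (hk.mono (not_lt.mp h))
      obtain ⟨m, hm⟩ : ∃ m, Nat.find hex = m + 2 := ⟨Nat.find hex - 2, by omega⟩
      have hq1 : Quo N c.out 1 := hk.mono (by omega)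
      have hc : ∃ a b : c.out, a * b ≠ b * a := by
        by_contra h
        exact hall (hab _ h hq1)
      obtain ⟨s, hs⟩ := hgen c.out hc hq1 hex
      have hs1 : ∃ i, i ≠ i0 ∧ s i ≠ 1 := by
        by_contra h
        push Not at h
        have h3 : ⊤ ≤ Subgroup.zpowers (s i0) := by
          rw [← hs, Subgroup.closure_le]
          rintro _ ⟨i, rfl⟩
          by_cases hi : i = i0
          · rw [hi]; exact Subgroup.mem_zpowers _
          · rw [h i hi]; exact Subgroup.one_mem _
        obtain ⟨a, b, hab⟩ := hc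
        obtain ⟨u, rfl⟩ := h3 (Subgroup.mem_top a)
        obtain ⟨v, rfl⟩ := h3 (Subgroup.mem_top b)
        exact hab (zpow_mul_comm _ _ _)
      obtain ⟨i2, h4, h5⟩ := hs1
      refine ⟨m, by omega, h1, h2, ?_, Or.inr (hm ▸ Nat.find_spec hex), ?_⟩
      · exact not_not.mp (Nat.find_min hex (by omega))
      · exact datum_gen hG m (χ _) (hχo _) (hχ _) L hLn (hLχ _) hxL s hs i2 h4 h5
  have hQ : ∀ (S : Type) [Group S] [Finite S] [IsSimpleGroup S] (k : ℕ),
      Quo N S k ↔ Quo M S k := by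
    intro S _ _ _ k
    rcases k with _ | k
    · exact ⟨fun _ => quo_zero _ _, fun _ => quo_zero _ _⟩
    constructor
    · intro h
      let c : Quotient isoS := Quotient.mk isoS (GrpCat.of S)
      obtain ⟨e⟩ : Nonempty (c.out ≃* S) := Quotient.mk_out (s := isoS) (GrpCat.of S)
      have : Finite c.out := Finite.of_equiv S e.symm.toEquiv
      have : IsSimpleGroup c.out := e.isSimpleGroup
      obtain ⟨m, hm, hv⟩ := hvalid c k (h.iso e.symm)
      have h1 : Quo M c.out (m + 1) :=
        ⟨_, open_restrict hML _ (hρo ⟨(c, m), hv⟩), hρM ⟨(c, m), hv⟩⟩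
      exact (h1.mono (by omega)).iso e
    · rintro ⟨ψ, hψo, hψ⟩
      have han : ∀ a : Fin (k + 1), ∃ i, Nonempty (S ≃* Sf i) ∧
          ((∃ a b : Sf i, a * b ≠ b * a) → ∀ g : M, (g : G) ∈ K i → ψ g a = 1) := fun a =>
        analysis L M hMn hMc hML Sf (fun i => i.1.2) K ρ hKn hK hmin hM1 hM2
          ((Pi.evalMonoidHom (fun _ => S) a).comp ψ) (open_comp ψ hψo _)
          ((surjective_eval a).comp hψ)
      obtain ⟨i, ⟨e⟩, -⟩ := han 0
      have hq := i.2.2.2.1
      by_cases hall : ∀ k, Quo N (Sf i) k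
      · exact (hall _).iso e.symm
      have hnq : ¬ Quo N (Sf i) (i.1.2 + 2) := i.2.2.2.2.1.resolve_left hall
      have hc : ∃ a b : Sf i, a * b ≠ b * a := by
        by_contra h
        exact hall (hab _ h (hq.mono (by omega)))
      have hker : ((ρ i).comp (Subgroup.inclusion hML)).ker ≤ ψ.ker := by
        intro g hg
        rw [MonoidHom.mem_ker]
        ext a
        obtain ⟨j, ⟨e'⟩, hj⟩ := han a
        have hji : j = i := by
          obtain ⟨⟨cj, mj⟩, hvj⟩ := j
          obtain ⟨⟨ci, mi⟩, hvi⟩ := i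
          have h1 : cj = ci := Quotient.out_equiv_out.mp ⟨e'.symm.trans e⟩
          subst h1
          have h2 : ¬ Quo N cj.out (mj + 2) := hvj.2.2.2.1.resolve_left hall
          have h3 : Quo N cj.out (mj + 1) := hvj.2.2.1
          have h4 : mj = mi := by
            by_contra hne
            rcases Nat.lt_or_gt_of_ne hne with h | h
            · exact h2 (hq.mono (show mj + 2 ≤ mi + 1 by omega))
            · exact hnq (h3.mono (show mi + 2 ≤ mj + 1 by omega))
          subst h4
          rfl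
        subst hji
        exact hj hc g ((hK j _).mp hg)
      obtain ⟨μ, hμ⟩ := exists_factor _ (hρM i) ψ hker
      have hμs : Surjective μ := by
        intro f
        obtain ⟨g, rfl⟩ := hψ f
        exact ⟨_, DFunLike.congr_fun hμ g⟩
      have h1 := Nat.card_le_card_of_surjective μ hμs
      rw [Nat.card_fun, Nat.card_fun, Nat.card_eq_fintype_card (α := Fin _), Fintype.card_fin,
        Nat.card_eq_fintype_card (α := Fin _), Fintype.card_fin,
        ← Nat.card_congr e.toEquiv] at h1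
      have h2 : k + 1 ≤ i.1.2 + 1 := (Nat.pow_le_pow_iff_right Finite.one_lt_card).mp h1
      exact (hq.mono h2).iso e.symm
  have hPN : PropP N := propP_of N hNn (fun b =>
    ⟨⊤, isOpen_univ, le_top, fun H hH _ => allSolv_omega hκ hF H hH b⟩)
  have hPM : PropP M := propP_of M hMn (fun b =>
    ⟨(χ (b * b)).ker, hχo _, hML.trans (hLχ _), fun H hH hHT =>
      allSolv_rank hG h01 (b * b) (χ _) (hχ _) H hH hHT b (le_refl _)⟩)
  obtain ⟨U, hU, hU1⟩ := countable_base (G := F) (fun d =>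
    countable_homs hF (by rw [Nat.cofinite_eq_atTop]; exact hκ) _)
  obtain ⟨U', hU', hU1'⟩ := countable_base (G := G) (fun d =>
    countable_homs hG (by rw [cofinite_eq_bot]; exact tendsto_bot) _)
  obtain ⟨W, hW, hW1⟩ := base_restrict U hU hU1 N
  obtain ⟨W', hW', hW1'⟩ := base_restrict U' hU' hU1' M
  have : CompactSpace N := isCompact_iff_compactSpace.mp hNc.isCompact
  have : CompactSpace M := isCompact_iff_compactSpace.mp hMc.isCompact
  exact ⟨M, hMc, hMn, back_and_forth hPN hPM hQ W hW hW1 W' hW' hW1'⟩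

end Pool.Agent.P.MP_d237de_al
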