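import Pool.Agent.P.MP_d237de_al.Rank
import Pool.Agent.P.MP_d237de_al.Abel

set_option autoImplicit false

namespace Pool.Agent.P.MP_d237de_al

open Function Filter Topology

theorem simple_factor {M T S J : Type} [Group M] [Group T] [Group S] [IsSimpleGroup T]
    [IsSimpleGroup S] (θ : M →* T) (hθ : Surjective θ) (ψ : J → M →* S)
    (hψ : ∀ j, Surjective (ψ j)) (s : Finset J) :
    (∀ g, (∀ j ∈ s, ψ j g = 1) → θ g = 1) →
      Nonempty (S ≃* T) ∧ ((∃ a b : T, a * b ≠ b * a) → ∃ j, (ψ j).ker = θ.ker) := by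
  classical
  obtain ⟨t0, ht0⟩ := exists_ne (1 : T)
  induction s using Finset.induction_on with
  | empty =>
    intro h
    obtain ⟨g, rfl⟩ := hθ t0
    exact absurd (h g (by simp)) ht0
  | insert j0 s hj0 ih =>
    intro h
    by_cases hs : ∀ g, (∀ j ∈ s, ψ j g = 1) → θ g = 1
    · exact ih hs
    push Not at hs
    obtain ⟨g0, hg0, hg0'⟩ := hs
    let D : Subgroup M := ⨅ j ∈ s, (ψ j).ker
    have hD : ∀ g, g ∈ D ↔ ∀ j ∈ s, ψ j g = 1 := by
      intro g
      simp [D, Subgroup.mem_iInf]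
    have hDn : D.Normal := ⟨fun a ha g => (hD _).mpr (fun j hj => by
      rw [map_mul, map_mul, (hD a).mp ha j hj, mul_one, ← map_mul, mul_inv_cancel, map_one])⟩
    have hk : ∀ g ∈ D, ψ j0 g = 1 → θ g = 1 := by
      intro g hg hg'
      apply h
      intro j hj
      rcases Finset.mem_insert.mp hj with rfl | hj
      · exact hg'
      · exact (hD g).mp hg j hj
    have h1 : D.map θ = ⊤ := by
      rcases (hDn.map θ hθ).eq_bot_or_eq_top with e | e
      · exact absurd ((Subgroup.map_eq_bot_iff _).mp e ((hD g0).mpr hg0)) hg0'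
      · exact e
    have h2 : D.map (ψ j0) = ⊤ := by
      rcases (hDn.map (ψ j0) (hψ j0)).eq_bot_or_eq_top with e | e
      · exact absurd (hk g0 ((hD g0).mpr hg0)
          ((Subgroup.map_eq_bot_iff _).mp e ((hD g0).mpr hg0))) hg0'
      · exact e
    have hs1 : Surjective (θ.comp D.subtype) := by
      intro t
      obtain ⟨g, hg, e⟩ : t ∈ D.map θ := h1 ▸ Subgroup.mem_top _
      exact ⟨⟨g, hg⟩, e⟩
    have hs2 : Surjective ((ψ j0).comp D.subtype) := by
      intro t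
      obtain ⟨g, hg, e⟩ : t ∈ D.map (ψ j0) := h2 ▸ Subgroup.mem_top _
      exact ⟨⟨g, hg⟩, e⟩
    obtain ⟨μ, hμ⟩ := exists_factor _ hs2 (θ.comp D.subtype) (fun g hg => hk g g.2 hg)
    have hμs : Surjective μ := by
      intro t
      obtain ⟨g, rfl⟩ := hs1 t
      exact ⟨_, DFunLike.congr_fun hμ g⟩
    have hμi : Injective μ := by
      rw [← MonoidHom.ker_eq_bot_iff]
      rcases (MonoidHom.normal_ker μ).eq_bot_or_eq_top with e | e
      · exact e
      · obtain ⟨a, rfl⟩ := hμs t0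
        have : a ∈ μ.ker := e ▸ Subgroup.mem_top _
        exact absurd this ht0
    refine ⟨⟨MulEquiv.ofBijective μ ⟨hμi, hμs⟩⟩, fun hT => ⟨j0, ?_⟩⟩
    have h3 : (ψ j0).ker ≤ θ.ker := by
      intro g hg
      by_contra hne
      obtain ⟨u, hu⟩ := exists_noncomm hT (θ g) hne
      obtain ⟨d, rfl⟩ := hs1 u
      apply hu
      have hg1 : ψ j0 g = 1 := hg
      have e : θ ((d : M) * g * (d : M)⁻¹ * g⁻¹) = 1 := by
        apply hk
        · have := D.mul_mem d.2 (hDn.conj_mem _ (D.inv_mem d.2) g)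
          simpa [mul_assoc] using this
        · simp [hg1]
      simpa using e
    refine le_antisymm h3 ?_
    rcases ((MonoidHom.normal_ker θ).map (ψ j0) (hψ j0)).eq_bot_or_eq_top with e | e
    · exact (Subgroup.map_eq_bot_iff _).mp e
    · exfalso
      obtain ⟨g, rfl⟩ := hθ t0
      obtain ⟨y, hy, e'⟩ : ψ j0 g ∈ θ.ker.map (ψ j0) := e ▸ Subgroup.mem_top _
      have h4 : y⁻¹ * g ∈ (ψ j0).ker := by
        rw [MonoidHom.mem_ker, map_mul, map_inv, e', inv_mul_cancel]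
      have h5 := θ.ker.mul_mem hy (h3 h4)
      rw [mul_inv_cancel_left] at h5
      exact ht0 h5

theorem exists_simple_quot {B : Type} [Group B] [Finite B] (Y0 : Subgroup B) (hY0 : Y0.Normal)
    (hne : Y0 ≠ ⊤) : ∃ (T : Type) (_ : Group T) (_ : IsSimpleGroup T) (θ : B →* T),
      Surjective θ ∧ Y0 ≤ θ.ker := by
  obtain ⟨Y, hY⟩ := exists_maximal_of_wellFoundedGT
    (fun Y : Subgroup B => Y.Normal ∧ Y0 ≤ Y ∧ Y ≠ ⊤) ⟨Y0, hY0, le_refl _, hne⟩
  obtain ⟨hYn, hY1, hY2⟩ := hY.prop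
  refine ⟨B ⧸ Y, inferInstance, ?_, QuotientGroup.mk' Y, QuotientGroup.mk'_surjective Y, ?_⟩
  · have : Nontrivial (B ⧸ Y) := QuotientGroup.nontrivial_iff.mpr hY2
    refine ⟨fun Z hZ => ?_⟩
    have h1 : Y ≤ Z.comap (QuotientGroup.mk' Y) := by
      intro y hy
      show QuotientGroup.mk' Y y ∈ Z
      rw [show QuotientGroup.mk' Y y = 1 from (QuotientGroup.eq_one_iff y).mpr hy]
      exact Z.one_mem
    by_cases h : Z.comap (QuotientGroup.mk' Y) = ⊤
    · right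
      rw [eq_top_iff]
      intro z _
      obtain ⟨b, rfl⟩ := QuotientGroup.mk'_surjective Y z
      have : b ∈ Z.comap (QuotientGroup.mk' Y) := h ▸ Subgroup.mem_top _
      exact this
    · left
      have h2 := hY.le_of_ge ⟨hZ.comap _, hY1.trans h1, h⟩ h1
      rw [eq_bot_iff]
      intro z hz
      obtain ⟨b, rfl⟩ := QuotientGroup.mk'_surjective Y z
      exact (QuotientGroup.eq_one_iff b).mpr (h2 hz)
  · rw [QuotientGroup.ker_mk']
    exact hY1

theorem exists_minimal_sub {G : Type} [Group G] [TopologicalSpace G] [IsTopologicalGroup G]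
    [CompactSpace G] (L : Subgroup G) (hLn : L.Normal) (hLc : IsClosed (L : Set G))
    {Idx : Type 1} (A : Idx → Type) [∀ i, Group (A i)] (ρ : ∀ i, L →* A i)
    (hρo : ∀ i, IsOpen ((ρ i).ker : Set L)) (hρ : ∀ i, Surjective (ρ i)) :
    ∃ M : Subgroup G, (M.Normal ∧ IsClosed (M : Set G) ∧ M ≤ L ∧
      ∀ i f, ∃ l : L, (l : G) ∈ M ∧ ρ i l = f) ∧
      ∀ Y : Subgroup G, Y.Normal → IsClosed (Y : Set G) → Y ≤ M →
        (∀ i f, ∃ l : L, (l : G) ∈ Y ∧ ρ i l = f) → M ≤ Y := by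
  have : CompactSpace L := isCompact_iff_compactSpace.mp hLc.isCompact
  let P : Set (Subgroup G) := {Y | Y.Normal ∧ IsClosed (Y : Set G) ∧ Y ≤ L ∧
      ∀ i f, ∃ l : L, (l : G) ∈ Y ∧ ρ i l = f}
  have hLP : L ∈ P := ⟨hLn, hLc, le_refl _, fun i f => by
    obtain ⟨l, hl⟩ := hρ i f
    exact ⟨l, l.2, hl⟩⟩
  obtain ⟨M, -, hM⟩ := @zorn_le_nonempty₀ (Subgroup G)ᵒᵈ _ P (by
    intro c hc hch y hy
    let c' : Set (Subgroup G) := c
    refine ⟨(sInf c' : Subgroup G), ⟨?_, ?_, ?_, ?_⟩, fun z hz => sInf_le (s := c') hz⟩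
    · exact ⟨fun a ha g => Subgroup.mem_sInf.mpr (fun p hp =>
        (hc hp).1.conj_mem a (Subgroup.mem_sInf.mp ha p hp) g)⟩
    · rw [Subgroup.coe_sInf]
      exact isClosed_biInter (fun p hp => (hc hp).2.1)
    · exact le_trans (sInf_le (s := c') hy) (hc hy).2.2.1
    · intro i f
      have : Nonempty c' := ⟨⟨y, hy⟩⟩
      have hcl : ∀ p : c', IsClosed {l : L | (l : G) ∈ p.1 ∧ ρ i l = f} := by
        intro p
        let _ : TopologicalSpace (A i) := ⊥
        have : DiscreteTopology (A i) := ⟨rfl⟩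
        exact ((hc p.2).2.1.preimage continuous_subtype_val).inter
          ((isClosed_discrete {f}).preimage (continuous_of_open_ker (ρ i) (hρo i)))
      obtain ⟨l, hl⟩ := IsCompact.nonempty_iInter_of_directed_nonempty_isCompact_isClosed
        (fun p : c' => {l : L | (l : G) ∈ p.1 ∧ ρ i l = f}) (by
          intro p q
          rcases hch.total p.2 q.2 with h | h
          · exact ⟨q, fun l hl => ⟨h hl.1, hl.2⟩, fun l hl => hl⟩
          · exact ⟨p, fun l hl => hl, fun l hl => ⟨h hl.1, hl.2⟩⟩)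
        (fun p => (hc p.2).2.2.2 i f) (fun p => (hcl p).isCompact) hcl
      rw [Set.mem_iInter] at hl
      exact ⟨l, Subgroup.mem_sInf.mpr (fun p hp => (hl ⟨p, hp⟩).1), (hl ⟨y, hy⟩).2⟩) L hLP
  refine ⟨M, hM.prop, fun Y h1 h2 h3 h4 => ?_⟩
  exact hM.2 (y := Y) ⟨h1, h2, h3.trans hM.prop.2.2.1, h4⟩ h3

theorem analysis {G : Type} [Group G] [TopologicalSpace G] [IsTopologicalGroup G]
    [CompactSpace G] [TotallyDisconnectedSpace G] (L M : Subgroup G) (hMn : M.Normal)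
    (hMc : IsClosed (M : Set G)) (hML : M ≤ L)
    {Idx : Type 1} (Sf : Idx → Type) [∀ i, Group (Sf i)] [∀ i, Finite (Sf i)]
    [∀ i, IsSimpleGroup (Sf i)] (m : Idx → ℕ) (K : Idx → Subgroup G)
    (ρ : ∀ i, L →* (Fin (m i + 1) → Sf i)) (hKn : ∀ i, (K i).Normal)
    (hK : ∀ i (l : L), ρ i l = 1 ↔ (l : G) ∈ K i)
    (hmin : ∀ i, (∃ a b : Sf i, a * b ≠ b * a) → ∀ Y : Subgroup G, Y.Normal → Y ≤ L →
      (∀ l : L, (l : G) ∈ Y → ρ i l = 1) ∨ ∀ f, ∃ l : L, (l : G) ∈ Y ∧ ρ i l = f)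
    (hM1 : ∀ i f, ∃ l : L, (l : G) ∈ M ∧ ρ i l = f)
    (hM2 : ∀ Y : Subgroup G, Y.Normal → IsClosed (Y : Set G) → Y ≤ M →
        (∀ i f, ∃ l : L, (l : G) ∈ Y ∧ ρ i l = f) → M ≤ Y)
    {S : Type} [Group S] [IsSimpleGroup S] (ψ0 : M →* S) (hψo : IsOpen (ψ0.ker : Set M))
    (hψ : Surjective ψ0) :
    ∃ i, Nonempty (S ≃* Sf i) ∧
      ((∃ a b : Sf i, a * b ≠ b * a) → ∀ g : M, (g : G) ∈ K i → ψ0 g = 1) := by
  classical
  obtain ⟨V, hVn, hVo, -, hV⟩ := exists_open_normal_sub M ψ0.ker hψo ⊤ isOpen_univ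
  have : Finite (G ⧸ V) := Subgroup.quotient_finite_of_isOpen V hVo
  have := Fintype.ofFinite (G ⧸ V)
  let cj : G → M →* S := fun x => ψ0.comp (MulAut.conjNormal x : MulAut M).toMonoidHom
  have hcj : ∀ x (g : M), cj x g = ψ0 ⟨x * g * x⁻¹, hMn.conj_mem _ g.2 x⟩ := fun _ _ => rfl
  have hcjs : ∀ x, Surjective (cj x) := fun x => hψ.comp (MulAut.conjNormal x : MulAut M).surjective
  let W' : Subgroup M := ⨅ x, (cj x).ker
  have hW' : ∀ g : M, g ∈ W' ↔ ∀ x, cj x g = 1 := by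
    intro g
    simp only [W', Subgroup.mem_iInf, MonoidHom.mem_ker]
  have hVW : ∀ g : M, (g : G) ∈ V → g ∈ W' := by
    intro g hg
    rw [hW']
    intro x
    exact hV _ (hVn.conj_mem _ hg x)
  have hW'n : W'.Normal := Subgroup.normal_iInf_normal (fun x => inferInstance)
  let W : Subgroup G := W'.map M.subtype
  have hWM : W ≤ M := Subgroup.map_subtype_le _
  have hWn : W.Normal := by
    refine ⟨?_⟩
    rintro _ ⟨g, hg, rfl⟩ y
    refine ⟨⟨y * g * y⁻¹, hMn.conj_mem _ g.2 y⟩, (hW' _).mpr (fun x => ?_), rfl⟩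
    rw [← (hW' g).mp hg (x * y), hcj, hcj]
    congr 1
    ext
    simp [mul_assoc]
  have hWc : IsClosed (W : Set G) := by
    have h1 : IsOpen (W' : Set M) :=
      Subgroup.isOpen_mono (H₁ := V.comap M.subtype) (fun g hg => hVW g hg)
        (hVo.preimage continuous_subtype_val)
    exact hMc.isClosedEmbedding_subtypeVal.isClosedMap _ (W'.isClosed_of_isOpen h1)
  have hfin : ∀ g : M, (∀ q ∈ (Finset.univ : Finset (G ⧸ V)), cj q.out g = 1) → g ∈ W' := by
    intro g hg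
    rw [hW']
    intro x
    obtain ⟨v, hv⟩ := QuotientGroup.mk_out_eq_mul V x
    have h1 := hg (x : G ⧸ V) (Finset.mem_univ _)
    rw [hv] at h1
    have hmem : (v : G) * g * (v : G)⁻¹ * (g : G)⁻¹ ∈ M :=
      M.mul_mem (hMn.conj_mem _ g.2 _) (M.inv_mem g.2)
    have h2 : cj x ⟨_, hmem⟩ = 1 := by
      refine (hW' _).mp (hVW _ ?_) x
      have := V.mul_mem v.2 (hVn.conj_mem _ (V.inv_mem v.2) (g : G))
      simpa [mul_assoc] using this
    have h3 : cj (x * v) g = cj x ⟨_, hmem⟩ * cj x g := by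
      rw [← map_mul, hcj, hcj]
      congr 1
      ext
      simp [mul_assoc]
    rw [h1, h2, one_mul] at h3
    exact h3.symm
  have hfail : ∃ i f, ¬ ∃ l : L, (l : G) ∈ W ∧ ρ i l = f := by
    by_contra hcon
    push Not at hcon
    have h1 := hM2 W hWn hWc hWM hcon
    obtain ⟨s, hs⟩ := exists_ne (1 : S)
    obtain ⟨g, rfl⟩ := hψ s
    obtain ⟨g', hg', e⟩ := h1 g.2
    have e' : g' = g := Subtype.ext e
    have h2 := (hW' g').mp hg' 1
    rw [e', hcj] at h2
    apply hs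
    rw [← h2]
    congr 1
    ext
    simp
  obtain ⟨i, f, hf⟩ := hfail
  let ρM : M →* (Fin (m i + 1) → Sf i) := (ρ i).comp (Subgroup.inclusion hML)
  have hρM : Surjective ρM := by
    intro f'
    obtain ⟨l, hl, e⟩ := hM1 i f'
    exact ⟨⟨l, hl⟩, e⟩
  refine ⟨i, ?_, ?_⟩
  · obtain ⟨T, i1, i2, θ, hθ, hθ'⟩ := exists_simple_quot (W'.map ρM) (hW'n.map ρM hρM) (by
      intro h
      obtain ⟨g, hg, e⟩ : f ∈ W'.map ρM := h ▸ Subgroup.mem_top _
      exact hf ⟨Subgroup.inclusion hML g, ⟨g, hg, rfl⟩, e⟩)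
    obtain ⟨⟨e1⟩, -⟩ := simple_factor (θ.comp ρM) (hθ.comp hρM) (fun q : G ⧸ V => cj q.out)
      (fun q => hcjs _) Finset.univ (fun g hg => hθ' ⟨g, hfin g hg, rfl⟩)
    obtain ⟨⟨e2⟩, -⟩ := simple_factor θ hθ
      (fun c : Fin (m i + 1) => Pi.evalMonoidHom (fun _ => Sf i) c)
      (fun c => surjective_eval c) Finset.univ (fun g hg => by
        have : g = 1 := funext (fun c => hg c (Finset.mem_univ _))
        rw [this, map_one])
    exact ⟨e1.trans e2.symm⟩
  · intro hS g hg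
    rcases hmin i hS W hWn (hWM.trans hML) with h | h
    · obtain ⟨-, h2⟩ := simple_factor ((Pi.evalMonoidHom (fun _ => Sf i) 0).comp ρM)
        ((surjective_eval 0).comp hρM) (fun q : G ⧸ V => cj q.out)
        (fun q => hcjs _) Finset.univ (fun g hg => by
          have : ρM g = 1 := h (Subgroup.inclusion hML g) ⟨g, hfin g hg, rfl⟩
          rw [MonoidHom.comp_apply, this, map_one])
      obtain ⟨q, hq⟩ := h2 hS
      have hmem : q.out⁻¹ * (g : G) * q.out⁻¹⁻¹ ∈ M := hMn.conj_mem _ g.2 _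
      have h3 : ρM ⟨_, hmem⟩ = 1 :=
        (hK i (Subgroup.inclusion hML ⟨_, hmem⟩)).mpr ((hKn i).conj_mem _ hg _)
      have h4 : (⟨_, hmem⟩ : M) ∈ (cj q.out).ker := by
        rw [hq, MonoidHom.mem_ker, MonoidHom.comp_apply, h3, map_one]
      rw [MonoidHom.mem_ker, hcj] at h4
      rw [← h4]
      congr 1
      ext
      simp [mul_assoc]
    · exact absurd (h f) hf

end Pool.Agent.P.MP_d237de_al
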