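import Pool.Agent.P.MP_d237de_al.Wreath

set_option autoImplicit false

namespace Pool.Agent.P.MP_d237de_al

open Function Filter Topology

section
variable {G : Type} [Group G] [TopologicalSpace G] [IsTopologicalGroup G] {I : Type}
  [DecidableEq I] {x : I → G} {i0 : I}

theorem allSolv_rank [CompactSpace G] [TotallyDisconnectedSpace G] (hU : Univ G I x ⊥) {i1 : I}
    (h01 : i1 ≠ i0) (m : ℕ) (χ : G →* Cyc m) (hχ : ∀ i, χ (x i) = if i = i0 then gen m else 1)
    (H : Subgroup G) (hH : IsOpen (H : Set G)) (hHχ : H ≤ χ.ker) (b : ℕ) (hb : b * b ≤ m) :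
    AllSolv H b := by
  apply allSolv_of H hH b
  intro V _ _
  let ω : FreeGroup {i : I // True} →* RegularWreathProduct (Multiplicative ℚ) (Cyc m) :=
    FreeGroup.lift (fun i => if i.1 = i0 then RegularWreathProduct.inl (gen m)
      else bas _ _ (Pi.mulSingle 1 (Multiplicative.ofAdd 1)))
  let T : Subgroup (FreeGroup {i : I // True}) := (RegularWreathProduct.rightHom.comp ω).ker
  have hT : ∀ t : T, (ω t).right = 1 := fun t => t.2
  let τ : T →* Multiplicative (Cyc m → ℚ) :=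
    MonoidHom.mk' (fun t => Multiplicative.ofAdd (fun q => ((ω t).left q).toAdd)) (by
      intro a b
      rw [← ofAdd_add]
      congr 1
      ext q
      simp only [Subgroup.coe_mul, map_mul, RegularWreathProduct.mul_left, Pi.mul_apply, hT a,
        inv_one, one_mul, toAdd_mul, Pi.add_apply])
  refine ⟨{i : I // True}, _, _, freeData_of hU (fun _ => True) (by simp), by simp, Cyc m,
    inferInstance, inferInstance, ?_, T, τ, ?_, ?_⟩
  · rw [← Nat.card_eq_fintype_card, card_Cyc]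
    omega
  · have e : χ.comp (FreeGroup.lift (fun i : {i : I // True} => x i.1)) =
        RegularWreathProduct.rightHom.comp ω := by
      ext i
      simp only [MonoidHom.comp_apply, FreeGroup.lift_apply_of, hχ, ω]
      split_ifs <;> rfl
    intro w hw
    show (RegularWreathProduct.rightHom.comp ω) w = 1
    rw [← e]
    exact hHχ hw
  · intro q
    obtain ⟨e, rfl⟩ := exists_gen_pow m q
    have h1 : ω (FreeGroup.of ⟨i0, trivial⟩ ^ e * FreeGroup.of ⟨i1, trivial⟩ *
        (FreeGroup.of ⟨i0, trivial⟩ ^ e)⁻¹) =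
        bas _ _ (Pi.mulSingle (gen m ^ e) (Multiplicative.ofAdd 1)) := by
      simp only [map_mul, map_inv, map_pow, ω, FreeGroup.lift_apply_of, if_true, if_neg h01]
      rw [← map_pow, conj_bas]
      simp only [RegularWreathProduct.left_inl, RegularWreathProduct.right_inl, Pi.one_apply,
        one_mul, inv_one, mul_one]
      congr 1
      ext z
      by_cases hz : z = gen m ^ e
      · subst hz
        simp
      · have : (gen m ^ e)⁻¹ * z ≠ 1 := by
          rw [Ne, inv_mul_eq_one]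
          exact fun h => hz h.symm
        simp [Pi.mulSingle_eq_of_ne hz, Pi.mulSingle_eq_of_ne this]
    refine ⟨⟨_, show RegularWreathProduct.rightHom (ω _) = 1 by rw [h1]; rfl⟩, ?_⟩
    ext z
    show ((ω _).left z).toAdd = _
    rw [h1, bas_left]
    by_cases hz : z = gen m ^ e
    · subst hz
      simp
    · simp [Pi.mulSingle_eq_of_ne hz, Pi.single_eq_of_ne hz]

theorem exists_pi (hU : Univ G I x ⊥) (m : ℕ) (χ : G →* Cyc m) (hχo : IsOpen (χ.ker : Set G))
    (hχ : ∀ i, χ (x i) = if i = i0 then gen m else 1) {S : Type} [Group S] [Finite S]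
    (a : I → Cyc m → S) :
    ∃ π : G →* RegularWreathProduct S (Cyc m), IsOpen (π.ker : Set G) ∧
      (∀ i, (π (x i)).left = a i) ∧ (∀ g, (π g).right = χ g) ∧ ∀ q, ∃ g, (π g).right = q := by
  obtain ⟨π, h1, h2⟩ := hU.ex (RegularWreathProduct S (Cyc m))
    (fun i => ⟨a i, if i = i0 then gen m else 1⟩) (by simp)
  have h3 : RegularWreathProduct.rightHom.comp π = χ := by
    apply hU.uniq _ _ _ (open_comp π h1 _) hχo
    intro i
    rw [MonoidHom.comp_apply, h2, hχ]
    rfl
  have h4 : ∀ g, (π g).right = χ g := fun g => DFunLike.congr_fun h3 g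
  refine ⟨π, h1, fun i => by rw [h2], h4, ?_⟩
  intro q
  obtain ⟨e, rfl⟩ := exists_gen_pow m q
  exact ⟨x i0 ^ e, by rw [h4, map_pow, hχ, if_pos rfl]⟩

theorem datum_gen (hU : Univ G I x ⊥) (m : ℕ) (χ : G →* Cyc m) (hχo : IsOpen (χ.ker : Set G))
    (hχ : ∀ i, χ (x i) = if i = i0 then gen m else 1) (L : Subgroup G) (hLn : L.Normal)
    (hLχ : L ≤ χ.ker) (hxL : ∀ i, i ≠ i0 → x i ∈ L)
    {S : Type} [Group S] [Finite S] [IsSimpleGroup S] (s : I → S)
    (hs : Subgroup.closure (Set.range s) = ⊤) (i1 : I) (h01 : i1 ≠ i0) (hs1 : s i1 ≠ 1) :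
    HasDatum G L S (m + 1) := by
  obtain ⟨π, h1, h2, h3, h4⟩ := exists_pi hU m χ hχo hχ (fun i => Pi.mulSingle 1 (s i))
  have hL : ∀ l ∈ L, (π l).right = 1 := fun l hl => (h3 l).trans (hLχ hl)
  rw [← card_Cyc m]
  refine datum_of L π h1 hL h4 ?_
  refine Zof_top π L hLn h4 1 ?_ (s i1) hs1 ⟨x i1, hxL i1 h01, ?_⟩
  · let W : Subgroup S :=
      { carrier := {u | ∃ g, (π g).right = 1 ∧ (π g).left 1 = u}
        mul_mem' := by
          rintro _ _ ⟨a, ha, rfl⟩ ⟨b, hb, rfl⟩
          exact ⟨a * b, by simp [ha, hb], by simp [ha]⟩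
        one_mem' := ⟨1, by simp, by simp⟩
        inv_mem' := by
          rintro _ ⟨a, ha, rfl⟩
          exact ⟨a⁻¹, by simp [ha], by simp [ha]⟩ }
    have hW : ⊤ ≤ W := by
      rw [← hs, Subgroup.closure_le]
      rintro _ ⟨i, rfl⟩
      by_cases hi : i = i0
      · subst hi
        refine ⟨x i ^ (m + 1), ?_, ?_⟩
        · rw [h3, map_pow, hχ, if_pos rfl, gen_pow_card]
        · rw [map_pow]
          exact pow_left m (s i) _ (h2 i) (by rw [h3, hχ, if_pos rfl]) m (le_refl _)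
      · exact ⟨x i, hL _ (hxL i hi), by rw [h2]; simp⟩
    exact fun u => hW (Subgroup.mem_top u)
  · rw [eq_bas _ (hL _ (hxL i1 h01)), h2]

theorem datum_neu (hU : Univ G I x ⊥) (D : ℕ) (χ : G →* Cyc (2 * D))
    (hχo : IsOpen (χ.ker : Set G))
    (hχ : ∀ i, χ (x i) = if i = i0 then gen (2 * D) else 1) (L : Subgroup G) (hLn : L.Normal)
    (hLχ : L ≤ χ.ker) (hxL : ∀ i, i ≠ i0 → x i ∈ L)
    {S : Type} [Group S] [Finite S] [IsSimpleGroup S] (hS : ∃ a b : S, a * b ≠ b * a)
    (hD : Nat.card S + 1 ≤ D) (i1 : I) (h01 : i1 ≠ i0) : HasDatum G L S (2 * D + 1) := by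
  obtain ⟨α, β, hαβ⟩ := hS
  let en := (Finite.equivFin S).symm
  let e' : ℕ → S := fun j => if j = 0 then β else if h : j - 1 < Nat.card S then en ⟨j - 1, h⟩ else α
  let f : Cyc (2 * D) → S := fun q => if q.toAdd.val % 2 = 0 then e' (q.toAdd.val / 2) else 1
  have hf : ∀ j, j ≤ 2 * D → f (gen (2 * D) ^ j) = if j % 2 = 0 then e' (j / 2) else 1 := by
    intro j hj
    have : (gen (2 * D) ^ j).toAdd.val = j := by
      rw [gen_pow, toAdd_ofAdd, ZMod.val_natCast, Nat.mod_eq_of_lt (by omega)]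
    simp only [f, this]
  obtain ⟨π, h1, h2, h3, h4⟩ := exists_pi hU (2 * D) χ hχo hχ (fun i => if i = i0 then 1 else f)
  have hL : ∀ l ∈ L, (π l).right = 1 := fun l hl => (h3 l).trans (hLχ hl)
  have hx0 : π (x i0) = RegularWreathProduct.inl (gen (2 * D)) := by
    ext q
    · rw [h2, if_pos rfl]; rfl
    · rw [h3, hχ, if_pos rfl]; rfl
  have hx1 : π (x i1) = bas _ _ f := by
    rw [eq_bas _ (hL _ (hxL i1 h01)), h2, if_neg h01]
  have hfZ : f ∈ Zof π L := ⟨x i1, hxL i1 h01, hx1⟩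
  rw [← card_Cyc (2 * D)]
  refine datum_of L π h1 hL h4 ?_
  refine Zof_top π L hLn h4 1 ?_ (β * α * β⁻¹ * α⁻¹) ?_ ?_
  · intro u
    set j := (en.symm u).val with hj
    have hjlt : j < Nat.card S := (en.symm u).2
    have e1 : π ((x i0 ^ (2 * (j + 1)))⁻¹ * x i1 * (x i0 ^ (2 * (j + 1)))⁻¹⁻¹) =
        bas _ _ (fun q => f (gen (2 * D) ^ (2 * (j + 1)) * q)) := by
      rw [map_mul, map_mul, map_inv π (x i0 ^ (2 * (j + 1)))⁻¹, hx1, conj_bas, map_inv, map_pow,
        hx0, ← map_pow, ← map_inv]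
      simp only [RegularWreathProduct.left_inl, RegularWreathProduct.right_inl, Pi.one_apply,
        one_mul, inv_one, mul_one, inv_inv]
    refine ⟨_, by rw [e1]; rfl, ?_⟩
    rw [e1, bas_left, mul_one, hf _ (by omega), if_pos (by omega)]
    have e2 : 2 * (j + 1) / 2 = j + 1 := by omega
    simp only [e', e2, Nat.add_sub_cancel, Nat.succ_ne_zero, if_false, dif_pos hjlt]
    exact en.apply_symm_apply u
  · rw [Ne, mul_inv_eq_one, mul_inv_eq_iff_eq_mul]
    exact fun h => hαβ h.symm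
  · have hf' := Zof_conj π L hLn (x i0) f hfZ
    rw [hx0] at hf'
    simp only [RegularWreathProduct.left_inl, RegularWreathProduct.right_inl, Pi.one_apply,
      one_mul, inv_one, mul_one] at hf'
    have h5 := (Zof π L).mul_mem ((Zof π L).mul_mem ((Zof π L).mul_mem hfZ hf')
      ((Zof π L).inv_mem hfZ)) ((Zof π L).inv_mem hf')
    convert h5 using 1
    ext z
    simp only [Pi.mul_apply, Pi.inv_apply]
    obtain ⟨v, hv, rfl⟩ : ∃ v : ℕ, v ≤ 2 * D ∧ gen (2 * D) ^ v = z := by
      refine ⟨z.toAdd.val, ?_, ?_⟩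
      · have := ZMod.val_lt z.toAdd
        omega
      · rw [gen_pow, ZMod.natCast_zmod_val]; rfl
    rcases Nat.eq_zero_or_pos v with rfl | hv0
    · have e1 : (gen (2 * D))⁻¹ * gen (2 * D) ^ 0 = gen (2 * D) ^ (2 * D) := by
        rw [pow_zero, mul_one, inv_eq_iff_mul_eq_one, ← pow_succ', gen_pow_card]
      rw [e1, hf 0 (by omega), hf (2 * D) (le_refl _), pow_zero, Pi.mulSingle_eq_same]
      have e2 : 2 * D / 2 = D := by omega
      have e3 : 2 * D % 2 = 0 := by omega
      have e4 : D ≠ 0 := by omega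
      have e5 : ¬ (D - 1 < Nat.card S) := by omega
      simp [e', e2, e3, e4, e5]
    · have e1 : (gen (2 * D))⁻¹ * gen (2 * D) ^ v = gen (2 * D) ^ (v - 1) := by
        rw [inv_mul_eq_iff_eq_mul, ← pow_succ']
        congr 1
        omega
      rw [e1, hf v hv, hf (v - 1) (by omega),
        Pi.mulSingle_eq_of_ne (gen_pow_ne (2 * D) v hv0 (by omega))]
      by_cases hpar : v % 2 = 0
      · rw [if_neg (show ¬ (v - 1) % 2 = 0 by omega)]
        simp
      · rw [if_neg hpar]
        simp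

end

end Pool.Agent.P.MP_d237de_al
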