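import Pool.Agent.P.MP_d237de_al.Free

set_option autoImplicit false

namespace Pool.Agent.P.MP_d237de_al

open Function Filter Topology

/-- The base group of a regular wreath product. -/
def bas (D Q : Type) [Group D] [Group Q] : (Q → D) →* RegularWreathProduct D Q :=
  MonoidHom.mk' (fun f => ⟨f, 1⟩) (by
    intro a b
    ext q <;> simp)

@[simp] theorem bas_left {D Q : Type} [Group D] [Group Q] (f : Q → D) : (bas D Q f).left = f := rfl

@[simp] theorem bas_right {D Q : Type} [Group D] [Group Q] (f : Q → D) :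
    (bas D Q f).right = 1 := rfl

theorem conj_bas {D Q : Type} [Group D] [Group Q] (w : RegularWreathProduct D Q) (f : Q → D) :
    w * bas D Q f * w⁻¹ =
      bas D Q (fun q => w.left q * f (w.right⁻¹ * q) * (w.left q)⁻¹) := by
  ext q <;> simp

theorem eq_bas {D Q : Type} [Group D] [Group Q] (w : RegularWreathProduct D Q)
    (h : w.right = 1) : w = bas D Q w.left := by
  ext q
  · rfl
  · exact h

section
variable {G S Q : Type} [Group G] [Group S] [Group Q] [DecidableEq Q]

/-- The part of the base group reached by a subgroup. -/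
def Zof (π : G →* RegularWreathProduct S Q) (Y : Subgroup G) : Subgroup (Q → S) :=
  (Y.map π).comap (bas S Q)

omit [DecidableEq Q] in
theorem Zof_conj (π : G →* RegularWreathProduct S Q) (Y : Subgroup G) (hY : Y.Normal) (g : G)
    (f : Q → S) (hf : f ∈ Zof π Y) :
    (fun q => (π g).left q * f ((π g).right⁻¹ * q) * ((π g).left q)⁻¹) ∈ Zof π Y := by
  obtain ⟨y, hy, e⟩ := hf
  refine ⟨g * y * g⁻¹, hY.conj_mem y hy g, ?_⟩
  rw [map_mul, map_mul, map_inv, e, conj_bas]

theorem Zof_conj_single (π : G →* RegularWreathProduct S Q) (Y : Subgroup G) (hY : Y.Normal)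
    (g : G) (q : Q) (s : S) (hf : Pi.mulSingle q s ∈ Zof π Y) :
    Pi.mulSingle ((π g).right * q)
      ((π g).left ((π g).right * q) * s * ((π g).left ((π g).right * q))⁻¹) ∈ Zof π Y := by
  convert Zof_conj π Y hY g _ hf using 1
  ext z
  by_cases hz : z = (π g).right * q
  · subst hz
    simp
  · have : (π g).right⁻¹ * z ≠ q := by
      intro h
      apply hz
      rw [← h]; simp
    simp [Pi.mulSingle_eq_of_ne hz, Pi.mulSingle_eq_of_ne this]

theorem Zof_top [Finite Q] [IsSimpleGroup S] (π : G →* RegularWreathProduct S Q) (Y : Subgroup G)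
    (hY : Y.Normal) (htop : ∀ q : Q, ∃ g, (π g).right = q) (q0 : Q)
    (hW : ∀ u : S, ∃ g, (π g).right = 1 ∧ (π g).left q0 = u) (s0 : S) (hs0 : s0 ≠ 1)
    (hs : Pi.mulSingle q0 s0 ∈ Zof π Y) : Zof π Y = ⊤ := by
  let P : Subgroup S := (Zof π Y).comap (MonoidHom.mulSingle (fun _ : Q => S) q0)
  have hPn : P.Normal := by
    refine ⟨fun s hs u => ?_⟩
    obtain ⟨g, hg1, hg2⟩ := hW u
    have := Zof_conj_single π Y hY g q0 s hs
    rw [hg1, one_mul, hg2] at this
    exact this
  have hP : P = ⊤ := by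
    rcases hPn.eq_bot_or_eq_top with h | h
    · have : s0 ∈ P := hs
      rw [h] at this
      exact absurd this hs0
    · exact h
  rw [eq_top_iff]
  intro f _
  apply Subgroup.pi_mem_of_mulSingle_mem
  intro q
  obtain ⟨g, hg⟩ := htop (q * q0⁻¹)
  have h1 : ((π g).left q)⁻¹ * f q * (π g).left q ∈ P := hP ▸ Subgroup.mem_top _
  have h2 := Zof_conj_single π Y hY g q0 _ h1
  rw [hg, inv_mul_cancel_right] at h2
  simpa [mul_assoc] using h2

theorem exists_noncomm [IsSimpleGroup S] (hS : ∃ a b : S, a * b ≠ b * a) (a : S) (ha : a ≠ 1) :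
    ∃ s : S, s * a * s⁻¹ * a⁻¹ ≠ 1 := by
  by_contra hcon
  push Not at hcon
  have h1 : a ∈ Subgroup.center S := by
    rw [Subgroup.mem_center_iff]
    intro s
    have := hcon s
    rwa [mul_inv_eq_one, mul_inv_eq_iff_eq_mul] at this
  rcases (inferInstance : (Subgroup.center S).Normal).eq_bot_or_eq_top with h | h
  · rw [h] at h1
    exact ha h1
  · obtain ⟨x, y, hxy⟩ := hS
    have : y ∈ Subgroup.center S := h ▸ Subgroup.mem_top _
    exact hxy (Subgroup.mem_center_iff.mp this x)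

theorem Zof_min [Finite Q] [IsSimpleGroup S] (hS : ∃ a b : S, a * b ≠ b * a)
    (π : G →* RegularWreathProduct S Q) (htop : ∀ q : Q, ∃ g, (π g).right = q)
    (hbase : ∀ f, ∃ g, π g = bas S Q f) (Y : Subgroup G) (hY : Y.Normal) :
    Zof π Y = ⊥ ∨ Zof π Y = ⊤ := by
  by_cases h : Zof π Y = ⊥
  · exact Or.inl h
  right
  obtain ⟨⟨f, hf⟩, hne⟩ := Subgroup.ne_bot_iff_exists_ne_one.mp h
  have hf1 : f ≠ 1 := fun e => hne (Subtype.ext e)
  obtain ⟨q, hq⟩ := Function.ne_iff.mp hf1
  obtain ⟨s, hs⟩ := exists_noncomm hS (f q) hq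
  refine Zof_top π Y hY htop q ?_ _ hs ?_
  · intro u
    obtain ⟨g, hg⟩ := hbase (Pi.mulSingle q u)
    exact ⟨g, by rw [hg]; rfl, by rw [hg]; simp⟩
  · obtain ⟨g, hg⟩ := hbase (Pi.mulSingle q s)
    have h1 := (Zof π Y).mul_mem (Zof_conj π Y hY g f hf) ((Zof π Y).inv_mem hf)
    convert h1 using 1
    ext z
    by_cases hz : z = q
    · subst hz
      simp [hg]
    · simp [hg, Pi.mulSingle_eq_of_ne hz]

end

/-- A normal section of `G` isomorphic to `S ^ m`, reached from `L`. -/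
def HasDatum (G : Type) [Group G] [TopologicalSpace G] (L : Subgroup G) (S : Type) [Group S]
    (m : ℕ) : Prop :=
  ∃ (K : Subgroup G) (ρ : L →* (Fin m → S)), K.Normal ∧ IsOpen (K : Set G) ∧
    (∀ l : L, ρ l = 1 ↔ (l : G) ∈ K) ∧ Surjective ρ ∧
    ((∃ a b : S, a * b ≠ b * a) → ∀ Y : Subgroup G, Y.Normal → Y ≤ L →
      (∀ l : L, (l : G) ∈ Y → ρ l = 1) ∨ ∀ f, ∃ l : L, (l : G) ∈ Y ∧ ρ l = f)

theorem datum_of {G S Q : Type} [Group G] [TopologicalSpace G] [Group S] [IsSimpleGroup S]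
    [Group Q] [Finite Q] [DecidableEq Q] (L : Subgroup G) (π : G →* RegularWreathProduct S Q)
    (hπ : IsOpen (π.ker : Set G)) (hL : ∀ l ∈ L, (π l).right = 1)
    (htop : ∀ q : Q, ∃ g, (π g).right = q) (hZ : Zof π L = ⊤) : HasDatum G L S (Nat.card Q) := by
  let e := (Finite.equivFin Q).symm
  let ρ : L →* (Fin (Nat.card Q) → S) := MonoidHom.mk' (fun l i => (π l).left (e i)) (by
    intro a b
    ext i
    simp only [Subgroup.coe_mul, map_mul, RegularWreathProduct.mul_left, Pi.mul_apply, hL a a.2,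
      inv_one, one_mul])
  have hρ : ∀ (l : L) (f : Q → S), π l = bas S Q f → ρ l = f ∘ e := by
    intro l f h
    ext i
    show (π l).left (e i) = f (e i)
    rw [h]; rfl
  have hall : ∀ Y : Subgroup G, Y ≤ L → Zof π Y = ⊤ → ∀ f, ∃ l : L, (l : G) ∈ Y ∧ ρ l = f := by
    intro Y hYL hY f
    have : f ∘ e.symm ∈ Zof π Y := hY ▸ Subgroup.mem_top _
    obtain ⟨y, hy, h⟩ := this
    refine ⟨⟨y, hYL hy⟩, hy, ?_⟩
    rw [hρ _ _ h]
    ext i; simp
  have hker : ∀ l : L, ρ l = 1 ↔ (l : G) ∈ π.ker := by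
    intro l
    constructor
    · intro h
      rw [MonoidHom.mem_ker]
      ext q
      · have := congrFun h (e.symm q)
        have e1 : ρ l (e.symm q) = (π l).left (e (e.symm q)) := rfl
        rw [e1, e.apply_symm_apply] at this
        exact this
      · exact hL l l.2
    · intro h
      rw [hρ l 1 (by rw [map_one]; exact h)]
      rfl
  refine ⟨π.ker, ρ, inferInstance, hπ, hker, ?_, ?_⟩
  · intro f
    obtain ⟨l, -, h⟩ := hall L (le_refl _) hZ f
    exact ⟨l, h⟩
  · intro hS Y hYn hYL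
    have hbase : ∀ f, ∃ g, π g = bas S Q f := by
      intro f
      have : f ∈ Zof π L := hZ ▸ Subgroup.mem_top _
      obtain ⟨y, -, h⟩ := this
      exact ⟨y, h⟩
    rcases Zof_min hS π htop hbase Y hYn with h | h
    · left
      intro l hl
      have h1 : (π l).left ∈ Zof π Y := ⟨l, hl, eq_bas _ (hL l l.2)⟩
      rw [h, Subgroup.mem_bot] at h1
      ext i
      show (π l).left (e i) = 1
      rw [h1]; rfl
    · right
      exact hall Y hYL h

/-- The cyclic group of order `m + 1`. -/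
abbrev Cyc (m : ℕ) : Type := Multiplicative (ZMod (m + 1))

/-- Its generator. -/
def gen (m : ℕ) : Cyc m := Multiplicative.ofAdd 1

theorem gen_pow (m e : ℕ) : gen m ^ e = Multiplicative.ofAdd (e : ZMod (m + 1)) := by
  unfold gen
  rw [← ofAdd_nsmul, nsmul_one]

theorem exists_gen_pow (m : ℕ) (q : Cyc m) : ∃ e : ℕ, gen m ^ e = q :=
  ⟨(q.toAdd).val, by rw [gen_pow, ZMod.natCast_zmod_val]; rfl⟩

theorem gen_pow_ne (m e : ℕ) (h0 : 0 < e) (h1 : e < m + 1) : gen m ^ e ≠ 1 := by
  rw [gen_pow]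
  intro h
  have h2 : (e : ZMod (m + 1)) = 0 := h
  rw [ZMod.natCast_eq_zero_iff] at h2
  exact absurd (Nat.le_of_dvd h0 h2) (by omega)

theorem gen_pow_card (m : ℕ) : gen m ^ (m + 1) = 1 := by
  rw [gen_pow, ZMod.natCast_self]; rfl

theorem card_Cyc (m : ℕ) : Nat.card (Cyc m) = m + 1 := by
  simp [Cyc]

theorem pow_left {S : Type} [Group S] (m : ℕ) (s : S) (w : RegularWreathProduct S (Cyc m))
    (h1 : w.left = Pi.mulSingle 1 s) (h2 : w.right = gen m) (j : ℕ) (hj : j ≤ m) :
    (w ^ (j + 1)).left 1 = s := by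
  induction j with
  | zero => simp [h1]
  | succ j ih =>
    have e : (w ^ (j + 1)).right = gen m ^ (j + 1) := by
      rw [← h2]
      exact map_pow RegularWreathProduct.rightHom w (j + 1)
    rw [pow_succ, RegularWreathProduct.mul_left, Pi.mul_apply, ih (by omega), e, h1, mul_one,
      Pi.mulSingle_eq_of_ne (inv_ne_one.mpr (gen_pow_ne m (j + 1) (by omega) (by omega))), mul_one]

end Pool.Agent.P.MP_d237de_al
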